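import Pool.Agent.H94.CV.F1d

/-!
# Module F1: the sums of the first moment
-/

set_option autoImplicit false

open NumberField NumberField.InfinitePlace Complex Filter Topology

namespace Pool.Agent.H94.CV

open Pool.Agent.H37.CV Pool.Agent.H28.RC Pool.Agent.H25.HK

namespace F1

/-- the relation is reflexive -/
theorem top_mem (K : Type) [Field K] [NumberField K] (m d : Ideal (𝓞 K)) :
    ((⊤ : Ideal (𝓞 K)), (⊤ : Ideal (𝓞 K))) ∈ CP m d :=
  ⟨top_ne_bot, top_ne_bot, top_sup_eq _, top_sup_eq _, top_sup_eq _, HU.rl_refl m d ⊤⟩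

/-- the series converges absolutely -/
theorem summ (hCX : T_CX) (hWV : T_WV) (hDV : T_DV) (hZK : T_ZK) (K : Type) [Field K]
    [NumberField K] (m d : Ideal (𝓞 K)) {X M : ℝ} (hX : 0 < X) (hM : 1 ≤ M) :
    Summable fun n : {n : Ideal (𝓞 K) // (n, ⊤) ∈ CP m d} =>
      ‖lam X M n.1‖ * nm n.1 ^ (-(1 / 2) : ℝ) := by
  obtain ⟨C, hC, -, h2⟩ := tail (K := K) hCX hWV hDV
  have h3 := (sum_inv_sq hZK K).1
  have h4 : Summable fun n : {n : Ideal (𝓞 K) // (n, ⊤) ∈ CP m d} =>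
      (nm n.1 ^ 2)⁻¹ := by
    refine h3.comp_injective (i := fun n : {n : Ideal (𝓞 K) // (n, ⊤) ∈ CP m d} =>
      (⟨n.1, n.2.1⟩ : NI K)) ?_
    intro a b hab
    exact Subtype.ext (congrArg (fun I : NI K => I.1) hab)
  refine Summable.of_nonneg_of_le (fun n => ?_) (fun n => h2 X M n.1 hX hM n.2.1)
    (h4.mul_left (C * (X * M) ^ 2))
  exact mul_nonneg (norm_nonneg _) (Real.rpow_nonneg (by linarith [nm_ge_one n.2.1]) _)

end F1

open F1 in
theorem pf_F1 (hRL : T_RL) (hPS : Pool.Agent.H37.CV.T_PS) (hDV : T_DV) (hWV : T_WV) (hHQ : T_HQ)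
    (_hGU : T_GU) (hCX : T_CX) (hZK : T_ZK) : Pool.Agent.H37.CV.T_F1 := by
  classical
  intro K _ _ _ ε₁ η hε₁ hε₁' hη
  obtain ⟨C, q₁, hC, hmain⟩ := finsum_le hRL hPS hDV hWV hHQ hCX hZK K
  obtain ⟨C₁, hC₁⟩ := hWV.1 1
  have hC₁0 : 0 ≤ C₁ := le_trans (by positivity) (hC₁ 1 one_pos).1
  have hlim : Tendsto (fun q : ℕ => (C + C₁) * (q : ℝ) ^ (-(1 / 4) : ℝ)) atTop (𝓝 0) := by
    have h1 := (tendsto_rpow_neg_atTop (show (0 : ℝ) < 1 / 4 by norm_num)).comp
      tendsto_natCast_atTop_atTop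
    have h2 := h1.const_mul (C + C₁)
    rw [mul_zero] at h2
    exact h2
  obtain ⟨q₂, hq₂⟩ := (hlim.eventually (gt_mem_nhds hη)).exists_forall_of_atTop
  refine ⟨max q₁ q₂, fun q hqp hq => ?_⟩
  have hq1' : 1 ≤ q := hqp.one_le
  have hq1 : (1 : ℝ) ≤ q := by exact_mod_cast hq1'
  have hq0 : (0 : ℝ) < q := by linarith
  have hsmall := hq₂ q ((le_max_right _ _).trans hq)
  obtain ⟨hncpos', hfin⟩ := hmain q hqp ((le_max_left _ _).trans hq)
  have hncpos : (0 : ℝ) < nc (qi K q) (qi K q) := by exact_mod_cast hncpos'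
  have hM1 : (1 : ℝ) ≤ (q : ℝ) ^ (1 - 2 * ε₁) := Real.one_le_rpow hq1 (by linarith)
  have hMq : (q : ℝ) ^ (1 - 2 * ε₁) ≤ q := by
    conv_rhs => rw [← Real.rpow_one (q : ℝ)]
    exact Real.rpow_le_rpow_of_exponent_le hq1 (by linarith)
  generalize (q : ℝ) ^ (1 - 2 * ε₁) = M at hM1 hMq ⊢
  have hfin' := hfin M hM1 hMq
  obtain ⟨hX1, -⟩ := Xq_bounds K hq1'
  set X := Xq K q with hX
  have hX0 : 0 < X := by linarith
  have hq4 : (0 : ℝ) < (q : ℝ) ^ (-(1 / 4) : ℝ) := by positivity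
  have hnorm : ∀ (n : Ideal (𝓞 K)), n ≠ ⊥ →
      ‖lam X M n * ((nm n ^ (-(1 / 2) : ℝ) : ℝ) : ℂ)‖ =
        ‖lam X M n‖ * nm n ^ (-(1 / 2) : ℝ) := by
    intro n hn
    rw [norm_mul, Complex.norm_real, Real.norm_of_nonneg
      (Real.rpow_nonneg (by linarith [nm_ge_one hn]) _)]
  constructor
  · set P := {n : Ideal (𝓞 K) // (n, ⊤) ∈ CP (qi K q) (qi K q)} with hP
    set f : P → ℂ := fun n => lam X M n.1 * ((nm n.1 ^ (-(1 / 2) : ℝ) : ℝ) : ℂ) with hf
    set n₀ : P := ⟨⊤, top_mem K _ _⟩ with hn₀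
    have hsn : Summable fun n : P => ‖f n‖ := by
      refine (summ hCX hWV hDV hZK K (qi K q) (qi K q) hX0 hM1).congr fun n => ?_
      exact (hnorm n.1 n.2.1).symm
    have hs : Summable f := hsn.of_norm
    have h1 : ∑' n, f n = f n₀ + ∑' n, (if n = n₀ then 0 else f n) :=
      hs.tsum_eq_add_tsum_ite n₀
    have h2 : f n₀ = wf (1 / X) := by
      show lam X M (⊤ : Ideal (𝓞 K)) * ((nm (⊤ : Ideal (𝓞 K)) ^ (-(1 / 2) : ℝ) : ℝ) : ℂ) = _
      rw [lam_top hCX hM1, nm_top, Real.one_rpow]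
      push_cast
      rw [mul_one]
    have h3 : ‖wf (1 / X) - 1‖ ≤ C₁ * (q : ℝ) ^ (-(1 / 4) : ℝ) := by
      refine ((hC₁ (1 / X) (by positivity)).2).trans (mul_le_mul_of_nonneg_left ?_ hC₁0)
      rw [pow_one]
      calc 1 / X ≤ 1 / q := one_div_le_one_div_of_le hq0 hX1
        _ = (q : ℝ) ^ (-1 : ℝ) := by rw [Real.rpow_neg_one, one_div]
        _ ≤ _ := Real.rpow_le_rpow_of_exponent_le hq1 (by norm_num)
    have hg : Summable fun n : P => ‖(if n = n₀ then 0 else f n)‖ := by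
      refine Summable.of_nonneg_of_le (fun n => norm_nonneg _) (fun n => ?_) hsn
      split_ifs
      · rw [norm_zero]
        exact norm_nonneg _
      · exact le_rfl
    have h4 : ‖∑' n, (if n = n₀ then 0 else f n)‖ ≤ C * (q : ℝ) ^ (-(1 / 4) : ℝ) := by
      refine (norm_tsum_le_tsum_norm hg).trans (hg.tsum_le_of_sum_le fun s => ?_)
      have h5 : ∑ n ∈ s, ‖(if n = n₀ then 0 else f n)‖ =
          ∑ n ∈ (s.erase n₀).map (Function.Embedding.subtype _),
            ‖lam X M n‖ * nm n ^ (-(1 / 2) : ℝ) := by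
        rw [Finset.sum_map]
        have h6 : ∑ n ∈ s, ‖(if n = n₀ then 0 else f n)‖ =
            ∑ n ∈ s.erase n₀, ‖(if n = n₀ then 0 else f n)‖ := by
          refine (Finset.sum_subset (Finset.erase_subset _ _) fun n hn hn' => ?_).symm
          have h7 : n = n₀ := by
            by_contra h
            exact hn' (Finset.mem_erase.2 ⟨h, hn⟩)
          rw [if_pos h7, norm_zero]
        rw [h6]
        refine Finset.sum_congr rfl fun n hn => ?_
        rw [if_neg (Finset.mem_erase.1 hn).1]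
        exact hnorm n.1 n.2.1
      rw [h5]
      have h6 := hfin' (qi K q) le_rfl ((s.erase n₀).map (Function.Embedding.subtype _)) (by
        intro n hn
        rw [Finset.mem_map] at hn
        obtain ⟨n', hn', rfl⟩ := hn
        refine ⟨n'.2, fun _ h => (Finset.mem_erase.1 hn').1 (Subtype.ext h)⟩)
      have h7 : (nc (qi K q) (qi K q) : ℝ) *
          ∑ n ∈ (s.erase n₀).map (Function.Embedding.subtype _),
            ‖lam X M n‖ * nm n ^ (-(1 / 2) : ℝ) ≤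
          (nc (qi K q) (qi K q) : ℝ) * (C * (q : ℝ) ^ (-(1 / 4) : ℝ)) := by
        refine h6.trans (le_of_eq ?_)
        ring
      exact le_of_mul_le_mul_left h7 hncpos
    have h5 : (∑' n, f n) - 1 = (wf (1 / X) - 1) + ∑' n, (if n = n₀ then 0 else f n) := by
      rw [h1, h2]
      ring
    rw [h5]
    refine (norm_add_le _ _).trans ((add_le_add h3 h4).trans ?_)
    linarith
  · intro d hd hdq
    set P := {n : Ideal (𝓞 K) // (n, ⊤) ∈ CP (qi K q) d} with hP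
    set f : P → ℂ := fun n => lam X M n.1 * ((nm n.1 ^ (-(1 / 2) : ℝ) : ℝ) : ℂ) with hf
    have hsn : Summable fun n : P => ‖f n‖ := by
      refine (summ hCX hWV hDV hZK K (qi K q) d hX0 hM1).congr fun n => ?_
      exact (hnorm n.1 n.2.1).symm
    have h1 : (nc (qi K q) d : ℝ) * ‖∑' n, f n‖ ≤ (nc (qi K q) d : ℝ) * ∑' n, ‖f n‖ :=
      mul_le_mul_of_nonneg_left (norm_tsum_le_tsum_norm hsn) (Nat.cast_nonneg _)
    refine h1.trans ?_
    rw [← tsum_mul_left]
    have h2 : ∑' n : P, (nc (qi K q) d : ℝ) * ‖f n‖ ≤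
        C * (q : ℝ) ^ (-(1 / 4) : ℝ) * nc (qi K q) (qi K q) := by
      refine (hsn.mul_left _).tsum_le_of_sum_le fun s => ?_
      have h5 : ∑ n ∈ s, (nc (qi K q) d : ℝ) * ‖f n‖ = (nc (qi K q) d : ℝ) *
          ∑ n ∈ s.map (Function.Embedding.subtype _), ‖lam X M n‖ * nm n ^ (-(1 / 2) : ℝ) := by
        rw [Finset.sum_map, Finset.mul_sum]
        refine Finset.sum_congr rfl fun n _ => ?_
        congr 1
        exact hnorm n.1 n.2.1
      rw [h5]
      refine hfin' d hd _ ?_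
      intro n hn
      rw [Finset.mem_map] at hn
      obtain ⟨n', hn', rfl⟩ := hn
      exact ⟨n'.2, fun h => absurd h hdq⟩
    refine h2.trans (mul_le_mul_of_nonneg_right ?_ hncpos.le)
    have : 0 ≤ C₁ * (q : ℝ) ^ (-(1 / 4) : ℝ) := by positivity
    linarith

end Pool.Agent.H94.CV
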