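import Pool.Agent.H37.CV.Targets
import Pool.Agent.H99.RC.PRE

/-!
# Module HU: the number of characters and the number of units
-/

set_option autoImplicit false

open NumberField NumberField.InfinitePlace Complex Filter Topology
open scoped nonZeroDivisors

namespace Pool.Agent.H94.CV

open Pool.Agent.H37.CV Pool.Agent.H28.RC Pool.Agent.H25.HK
open Pool.Agent.H99.RC (exQ sup_mul_top mul_canc span_ne mul_ne sup_top_of_le sup_top_of_le')

namespace HU

variable {K : Type} [Field K] [NumberField K]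

/-- elements prime to `d` are units modulo `d` -/
theorem unit_iff (d : Ideal (𝓞 K)) (a : 𝓞 K) :
    Ideal.span {a} ⊔ d = ⊤ ↔ ∃ r : (𝓞 K ⧸ d)ˣ, Ideal.Quotient.mk d a = r := by
  constructor
  · intro h
    obtain ⟨e, he, f, hf, hef⟩ := Submodule.mem_sup.1 ((Ideal.eq_top_iff_one _).1 h)
    obtain ⟨c, rfl⟩ := Ideal.mem_span_singleton.1 he
    have h1 : Ideal.Quotient.mk d a * Ideal.Quotient.mk d c = 1 := by
      rw [← map_mul, ← map_one (Ideal.Quotient.mk d), Ideal.Quotient.eq]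
      have h2 : a * c - 1 = -f := by rw [← hef]; ring
      rw [h2]
      exact d.neg_mem hf
    exact ⟨⟨_, _, h1, by rw [mul_comm]; exact h1⟩, rfl⟩
  · rintro ⟨r, hr⟩
    obtain ⟨c, hc⟩ := Ideal.Quotient.mk_surjective ((r⁻¹ : (𝓞 K ⧸ d)ˣ) : 𝓞 K ⧸ d)
    have h1 : a * c - 1 ∈ d := by
      rw [← Ideal.Quotient.eq, map_mul, map_one, hr, hc, Units.mul_inv]
    rw [Ideal.eq_top_iff_one]
    have h2 : (1 : 𝓞 K) = a * c - (a * c - 1) := by ring
    rw [h2]
    exact Ideal.sub_mem _ (Ideal.mem_sup_left (Ideal.mem_span_singleton.2 ⟨c, rfl⟩))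
      (Ideal.mem_sup_right h1)

/-- lifting of units -/
theorem lift_unit (m d : Ideal (𝓞 K)) (hm : m ≠ ⊥) (hmd : m ≤ d) (r : (𝓞 K ⧸ d)ˣ) :
    ∃ x : 𝓞 K, x ≠ 0 ∧ Ideal.span {x} ⊔ m = ⊤ ∧ Ideal.Quotient.mk d x = r := by
  by_cases hd : d = ⊤
  · subst hd
    haveI : Subsingleton (𝓞 K ⧸ (⊤ : Ideal (𝓞 K))) := Ideal.Quotient.subsingleton_iff.2 rfl
    refine ⟨1, one_ne_zero, ?_, Subsingleton.elim _ _⟩
    rw [Ideal.span_singleton_one, top_sup_eq]
  · obtain ⟨a, ha⟩ := Ideal.Quotient.mk_surjective (r : 𝓞 K ⧸ d)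
    have had : Ideal.span {a} ⊔ d = ⊤ := (unit_iff d a).2 ⟨r, ha⟩
    obtain ⟨Q, hQ0, hQd, hQ⟩ := exQ m d hm
    obtain ⟨e, he, f, hf, hef⟩ := Submodule.mem_sup.1 ((Ideal.eq_top_iff_one _).1 hQd)
    have hb1 : (a + (1 - a) * f) - a ∈ d := by
      have : (a + (1 - a) * f) - a = (1 - a) * f := by ring
      rw [this]
      exact Ideal.mul_mem_left _ _ hf
    have hb2 : (a + (1 - a) * f) - 1 ∈ Q := by
      have : (a + (1 - a) * f) - 1 = (a - 1) * e := by
        have h1 : f = 1 - e := by rw [← hef]; ring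
        rw [h1]
        ring
      rw [this]
      exact Ideal.mul_mem_left _ _ he
    generalize a + (1 - a) * f = b at hb1 hb2
    have hbr : Ideal.Quotient.mk d b = r := by
      rw [← ha]
      exact Ideal.Quotient.eq.2 hb1
    refine ⟨b, ?_, ?_, hbr⟩
    · rintro rfl
      rw [map_zero] at hbr
      haveI : Nontrivial (𝓞 K ⧸ d) := Ideal.Quotient.nontrivial_iff.2 hd
      exact r.ne_zero hbr.symm
    · by_contra hne
      obtain ⟨P, hP, hle⟩ := Ideal.exists_le_maximal _ hne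
      have hbP : b ∈ P := hle (Ideal.mem_sup_left (Ideal.mem_span_singleton_self b))
      have hmP : m ≤ P := le_sup_right.trans hle
      rcases hQ P hP.isPrime hmP with h7 | h7
      · refine hP.ne_top (top_le_iff.1 ?_)
        rw [← had]
        refine sup_le ?_ h7
        rw [Ideal.span_singleton_le_iff_mem]
        have : a = b - (b - a) := by ring
        rw [this]
        exact Ideal.sub_mem _ hbP (h7 hb1)
      · refine hP.ne_top ((Ideal.eq_top_iff_one _).2 ?_)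
        have : (1 : 𝓞 K) = b - (b - 1) := by ring
        rw [this]
        exact Ideal.sub_mem _ hbP (h7 hb2)

/-- the classes of the units of `K` -/
noncomputable def U (d : Ideal (𝓞 K)) : Subgroup (𝓞 K ⧸ d)ˣ :=
  (Units.map ((Ideal.Quotient.mk d : 𝓞 K →+* 𝓞 K ⧸ d) : 𝓞 K →* 𝓞 K ⧸ d)).range

theorem uc_eq (d : Ideal (𝓞 K)) : uc d = Nat.card (U d) := by
  unfold uc
  have h1 : (Set.range fun u : (𝓞 K)ˣ => Ideal.Quotient.mk d (u : 𝓞 K)) =
      (fun r : (𝓞 K ⧸ d)ˣ => (r : 𝓞 K ⧸ d)) '' (U d : Set (𝓞 K ⧸ d)ˣ) := by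
    ext x
    constructor
    · rintro ⟨u, rfl⟩
      exact ⟨Units.map _ u, ⟨u, rfl⟩, rfl⟩
    · rintro ⟨r, ⟨u, rfl⟩, rfl⟩
      exact ⟨u, rfl⟩
  rw [h1, Set.ncard_image_of_injective _ Units.val_injective]
  rfl

theorem rl_refl (m d I : Ideal (𝓞 K)) : Rl m d I I :=
  ⟨1, 1, one_ne_zero, one_ne_zero, by rw [Ideal.span_singleton_one, top_sup_eq],
    by rw [Ideal.span_singleton_one, top_sup_eq], by rw [sub_self]; exact d.zero_mem, rfl⟩

/-- Bessel's inequality -/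
theorem bessel (hOR : T_OR) [IsTotallyComplex K] {m d : Ideal (𝓞 K)} (hm : m ≠ ⊥) (hmd : m ≤ d)
    {T : Type} [Fintype T] (J : T → Ideal (𝓞 K)) (hJ : ∀ t, J t ≠ ⊥ ∧ J t ⊔ m = ⊤)
    (hinj : ∀ t s, Rl m d (J t) (J s) → t = s) : Fintype.card T ≤ nc m d := by
  classical
  obtain ⟨hfin, hpos, hor⟩ := hOR K m d hm hmd
  have hsum : ∀ f : (Ideal (𝓞 K) → ℂ) → ℂ, ∑ᶠ ψ ∈ Ch m d, f ψ = ∑ ψ ∈ hfin.toFinset, f ψ :=
    fun f => finsum_mem_eq_finite_toFinset_sum f hfin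
  have hne : (Ch m d).Nonempty := by
    rw [nc, Set.ncard_pos hfin] at hpos
    exact hpos
  obtain ⟨ψ₀, hψ₀⟩ := hne
  have h1 : ∀ t, ψ₀ (J t) * (starRingEnd ℂ) (ψ₀ (J t)) = 1 := by
    intro t
    rw [Complex.mul_conj, Complex.normSq_eq_norm_sq, hψ₀.1.norm _ (hJ t).1 (hJ t).2]
    norm_num
  have h2 : ∀ t s, ∑ ψ ∈ hfin.toFinset, ψ (J t) * (starRingEnd ℂ) (ψ (J s)) =
      if t = s then (nc m d : ℂ) else 0 := by
    intro t s
    have h3 := hor (J t) (J s) (hJ t).1 (hJ s).1 (hJ t).2 (hJ s).2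
    rw [hsum] at h3
    by_cases hts : t = s
    · subst hts
      rw [if_pos rfl]
      exact h3.1 (rl_refl _ _ _)
    · rw [if_neg hts]
      exact h3.2 (fun h => hts (hinj t s h))
  set w : (Ideal (𝓞 K) → ℂ) → ℂ := fun ψ => ∑ t, (starRingEnd ℂ) (ψ₀ (J t)) * ψ (J t) with hw
  have h3 : ∑ ψ ∈ hfin.toFinset, w ψ * (starRingEnd ℂ) (w ψ) =
      (nc m d : ℂ) * (Fintype.card T : ℂ) := by
    have h4 : ∀ ψ, w ψ * (starRingEnd ℂ) (w ψ) = ∑ t, ∑ s,
        ((starRingEnd ℂ) (ψ₀ (J t)) * ψ₀ (J s)) * (ψ (J t) * (starRingEnd ℂ) (ψ (J s))) := by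
      intro ψ
      rw [hw]
      simp only [map_sum, map_mul, Complex.conj_conj, Finset.sum_mul_sum]
      refine Finset.sum_congr rfl fun t _ => Finset.sum_congr rfl fun s _ => ?_
      ring
    simp only [h4]
    rw [Finset.sum_comm]
    have h5 : ∀ t : T, ∑ ψ ∈ hfin.toFinset, ∑ s,
        ((starRingEnd ℂ) (ψ₀ (J t)) * ψ₀ (J s)) * (ψ (J t) * (starRingEnd ℂ) (ψ (J s))) =
        (nc m d : ℂ) := by
      intro t
      rw [Finset.sum_comm]
      simp only [← Finset.mul_sum, h2]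
      simp only [mul_ite, mul_zero, Finset.sum_ite_eq, Finset.mem_univ, if_true]
      rw [mul_comm ((starRingEnd ℂ) (ψ₀ (J t))), h1, one_mul]
    simp only [h5, Finset.sum_const, Finset.card_univ, nsmul_eq_mul]
    ring
  have h4 : w ψ₀ = (Fintype.card T : ℂ) := by
    rw [hw]
    simp only
    have h5 : ∀ t, (starRingEnd ℂ) (ψ₀ (J t)) * ψ₀ (J t) = 1 := fun t => by rw [mul_comm]; exact h1 t
    simp only [h5, Finset.sum_const, Finset.card_univ, nsmul_eq_mul, mul_one]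
  have h5 : ∑ ψ ∈ hfin.toFinset, ‖w ψ‖ ^ 2 = (nc m d : ℝ) * (Fintype.card T : ℝ) := by
    have h6 : ((∑ ψ ∈ hfin.toFinset, ‖w ψ‖ ^ 2 : ℝ) : ℂ) =
        ((nc m d : ℝ) * (Fintype.card T : ℝ) : ℝ) := by
      push_cast
      rw [← h3]
      refine Finset.sum_congr rfl fun ψ _ => ?_
      rw [Complex.mul_conj, Complex.normSq_eq_norm_sq]
      push_cast
      rfl
    exact_mod_cast h6
  have h6 : ‖w ψ₀‖ ^ 2 ≤ ∑ ψ ∈ hfin.toFinset, ‖w ψ‖ ^ 2 :=
    Finset.single_le_sum (f := fun ψ => ‖w ψ‖ ^ 2) (fun ψ _ => sq_nonneg _)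
      (hfin.mem_toFinset.2 hψ₀)
  rw [h5, h4, Complex.norm_natCast] at h6
  have h7 : Fintype.card T ^ 2 ≤ nc m d * Fintype.card T := by exact_mod_cast h6
  rcases Nat.eq_zero_or_pos (Fintype.card T) with h8 | h8
  · rw [h8]
    exact Nat.zero_le _
  · rw [pow_two] at h7
    exact Nat.le_of_mul_le_mul_right h7 h8

/-- the ideals prime to `m` -/
def M (m : Ideal (𝓞 K)) : Submonoid (Ideal (𝓞 K)) where
  carrier := {I | I ≠ ⊥ ∧ I ⊔ m = ⊤}
  mul_mem' := fun h1 h2 => ⟨mul_ne h1.1 h2.1, sup_mul_top h1.2 h2.2⟩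
  one_mem' := ⟨one_ne_zero, by rw [Ideal.one_eq_top, top_sup_eq]⟩

/-- a character as a homomorphism -/
noncomputable def hm {m : Ideal (𝓞 K)} {ψ : Ideal (𝓞 K) → ℂ} (h : PC m ψ) : M m →* ℂ where
  toFun I := ψ I
  map_one' := by
    show ψ ((1 : M m) : Ideal (𝓞 K)) = 1
    rw [Submonoid.coe_one, Ideal.one_eq_top, h.one]
  map_mul' I J := h.mul _ _

/-- the number of characters is at most the number of classes -/
theorem nc_le (hOR : T_OR) [IsTotallyComplex K] {m d : Ideal (𝓞 K)} (hm0 : m ≠ ⊥) (hmd : m ≤ d)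
    {T : Type} [Fintype T] (τ : M m → T) (hτ : ∀ I J : M m, τ I = τ J → Rl m d I J) :
    nc m d ≤ Fintype.card T := by
  classical
  obtain ⟨hfin, -, -⟩ := hOR K m d hm0 hmd
  haveI : Fintype (Ch m d) := hfin.fintype
  have h1 : ∀ ψ ∈ Ch m d, ∀ I J : M m, Rl m d I J → ψ I = ψ J := by
    rintro ψ ⟨hψ, hψd⟩ I J ⟨a, b, ha, hb, ham, hbm, hab, hIJ⟩
    have h2 := congrArg ψ hIJ
    rw [hψ.mul, hψ.mul, hψd a b ha hb ham hbm hab] at h2
    refine mul_left_cancel₀ ?_ h2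
    intro h3
    have h4 := hψ.norm _ (span_ne hb) hbm
    rw [h3, norm_zero] at h4
    exact zero_ne_one h4
  have h2 : LinearIndependent ℂ (fun ψ : Ch m d => ((hm ψ.2.1 : M m →* ℂ) : M m → ℂ)) := by
    refine (linearIndependent_monoidHom (M m) ℂ).comp (fun ψ : Ch m d => hm ψ.2.1) ?_
    intro ψ ψ' h
    apply Subtype.ext
    funext I
    by_cases hI : I ≠ ⊥ ∧ I ⊔ m = ⊤
    · exact DFunLike.congr_fun h (⟨I, hI⟩ : M m)
    · by_cases hI0 : I = ⊥
      · rw [hI0, ψ.2.1.bot, ψ'.2.1.bot]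
      · have hI1 : I ⊔ m ≠ ⊤ := fun h => hI ⟨hI0, h⟩
        rw [ψ.2.1.zero _ hI1, ψ'.2.1.zero _ hI1]
  set L : (T → ℂ) →ₗ[ℂ] (M m → ℂ) := LinearMap.funLeft ℂ ℂ τ with hL
  have h3 : ∀ ψ : Ch m d, ∃ g : T → ℂ, L g = ((hm ψ.2.1 : M m →* ℂ) : M m → ℂ) := by
    intro ψ
    refine ⟨fun t => if h : ∃ I, τ I = t then ψ.1 (h.choose : M m) else 0, ?_⟩
    funext I
    show (if h : ∃ I', τ I' = τ I then ψ.1 (h.choose : M m) else 0) = ψ.1 I
    have h4 : ∃ I', τ I' = τ I := ⟨I, rfl⟩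
    rw [dif_pos h4]
    exact h1 ψ.1 ψ.2 _ _ (hτ _ _ h4.choose_spec)
  choose g hg using h3
  have h4 : LinearIndependent ℂ g := by
    refine LinearIndependent.of_comp L ?_
    have h5 : (L ∘ g) = fun ψ : Ch m d => ((hm ψ.2.1 : M m →* ℂ) : M m → ℂ) := by
      funext ψ
      exact hg ψ
    rw [h5]
    exact h2
  have h5 := h4.fintype_card_le_finrank
  rw [Module.finrank_fintype_fun_eq_card] at h5
  have h6 : nc m d = Fintype.card (Ch m d) := by
    unfold nc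
    rw [← Nat.card_coe_set_eq, Nat.card_eq_fintype_card]
  rw [h6]
  exact h5

end HU

open HU in
theorem pf_HU (hOR : T_OR) : T_HU := by
  classical
  intro K _ _ _
  refine ⟨Fintype.card (ClassGroup (𝓞 K)), ?_⟩
  intro m d hm hmd
  have hd : d ≠ ⊥ := by
    rintro rfl
    exact hm (le_bot_iff.1 hmd)
  haveI : Finite (𝓞 K ⧸ d) := Ideal.finiteQuotientOfFreeOfNeBot d hd
  haveI : Fintype (𝓞 K ⧸ d) := Fintype.ofFinite _
  haveI : Fintype ((𝓞 K ⧸ d)ˣ ⧸ U d) := Fintype.ofFinite _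
  have hcard : Nat.card (𝓞 K ⧸ d)ˣ = Fintype.card ((𝓞 K ⧸ d)ˣ ⧸ U d) * uc d := by
    rw [uc_eq, ← Nat.card_eq_fintype_card, mul_comm]
    exact (U d).card_mul_index.symm
  constructor
  · rw [hcard]
    refine Nat.mul_le_mul_right _ ?_
    choose x hx0 hxm hxr using fun t : (𝓞 K ⧸ d)ˣ ⧸ U d => lift_unit m d hm hmd t.out
    refine bessel hOR hm hmd (fun t => Ideal.span {x t}) (fun t => ⟨span_ne (hx0 t), hxm t⟩) ?_
    rintro t s ⟨a, b, ha, hb, ham, hbm, hab, hts⟩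
    rw [Ideal.span_singleton_mul_span_singleton, Ideal.span_singleton_mul_span_singleton,
      Ideal.span_singleton_eq_span_singleton] at hts
    obtain ⟨u, hu⟩ := hts
    have h1 : Ideal.Quotient.mk d a = Ideal.Quotient.mk d b := Ideal.Quotient.eq.2 hab
    obtain ⟨r, hr⟩ := (unit_iff d b).1 (sup_top_of_le' hbm hmd)
    have h2 := congrArg (Ideal.Quotient.mk d) hu
    rw [map_mul, map_mul, map_mul, h1, hr, hxr, hxr] at h2
    have h3 : t.out * Units.map ((Ideal.Quotient.mk d : 𝓞 K →+* 𝓞 K ⧸ d) : 𝓞 K →* 𝓞 K ⧸ d) u =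
        s.out := by
      have h4 : r * (t.out * Units.map
          ((Ideal.Quotient.mk d : 𝓞 K →+* 𝓞 K ⧸ d) : 𝓞 K →* 𝓞 K ⧸ d) u) = r * s.out := by
        apply Units.ext
        push_cast
        rw [← h2, mul_assoc]
        rfl
      exact mul_left_cancel h4
    rw [← QuotientGroup.out_eq' t, ← QuotientGroup.out_eq' s, QuotientGroup.eq]
    rw [← h3]
    have h5 : t.out⁻¹ * (t.out * Units.map
        ((Ideal.Quotient.mk d : 𝓞 K →+* 𝓞 K ⧸ d) : 𝓞 K →* 𝓞 K ⧸ d) u) = Units.map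
        ((Ideal.Quotient.mk d : 𝓞 K →+* 𝓞 K ⧸ d) : 𝓞 K →* 𝓞 K ⧸ d) u := by group
    rw [h5]
    exact ⟨u, rfl⟩
  · have hle : Nat.card (𝓞 K ⧸ d)ˣ ≤ Ideal.absNorm d := by
      rw [Ideal.absNorm_apply, Submodule.cardQuot_apply]
      exact Nat.card_le_card_of_injective _ Units.val_injective
    have hM : ∀ I : M m, (I : Ideal (𝓞 K)) ∈ (Ideal (𝓞 K))⁰ := fun I =>
      mem_nonZeroDivisors_of_ne_zero I.2.1
    set cl : M m → ClassGroup (𝓞 K) := fun I => ClassGroup.mk0 ⟨I, hM I⟩ with hcl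
    have hclm : ∀ I J : M m, cl (I * J) = cl I * cl J := by
      intro I J
      rw [hcl]
      simp only
      rw [← map_mul]
      rfl
    have hclp : ∀ (I : M m) (n : ℕ), cl (I ^ n) = cl I ^ n := by
      intro I n
      induction n with
      | zero =>
        rw [pow_zero, pow_zero, hcl]
        simp only
        rw [← map_one (ClassGroup.mk0)]
        rfl
      | succ n ih => rw [pow_succ, hclm, ih, pow_succ]
    have hW : ∀ c : ClassGroup (𝓞 K), ∃ W : M m, (∃ J : M m, cl J = c) → cl W = c⁻¹ := by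
      intro c
      by_cases hc : ∃ J : M m, cl J = c
      · obtain ⟨J, rfl⟩ := hc
        refine ⟨J ^ (Fintype.card (ClassGroup (𝓞 K)) - 1), fun _ => ?_⟩
        rw [hclp, eq_inv_iff_mul_eq_one, ← pow_succ,
          Nat.sub_add_cancel Fintype.card_pos, pow_card_eq_one]
      · exact ⟨1, fun h => absurd h hc⟩
    choose W hW using hW
    have hx : ∀ J : M m, ∃ x : 𝓞 K, x ≠ 0 ∧ (J : Ideal (𝓞 K)) * W (cl J) = Ideal.span {x} := by
      intro J
      have h1 : cl (J * W (cl J)) = 1 := by rw [hclm, hW _ ⟨J, rfl⟩, mul_inv_cancel]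
      rw [hcl] at h1
      simp only at h1
      rw [ClassGroup.mk0_eq_one_iff] at h1
      obtain ⟨x, hx⟩ := h1.principal
      refine ⟨x, ?_, hx⟩
      rintro rfl
      refine (J * W (cl J)).2.1 ?_
      rw [hx]
      simp
    choose x hx0 hx using hx
    have hxm : ∀ J : M m, Ideal.span {x J} ⊔ m = ⊤ := by
      intro J
      rw [← hx]
      exact (J * W (cl J)).2.2
    choose r hr using fun J : M m => (unit_iff d (x J)).1 (sup_top_of_le' (hxm J) hmd)
    have key := nc_le hOR hm hmd (T := ClassGroup (𝓞 K) × ((𝓞 K ⧸ d)ˣ ⧸ U d))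
      (fun J => (cl J, (QuotientGroup.mk (r J) : (𝓞 K ⧸ d)ˣ ⧸ U d))) ?_
    · rw [Fintype.card_prod] at key
      calc nc m d * uc d ≤ (Fintype.card (ClassGroup (𝓞 K)) *
            Fintype.card ((𝓞 K ⧸ d)ˣ ⧸ U d)) * uc d := Nat.mul_le_mul_right _ key
        _ = Fintype.card (ClassGroup (𝓞 K)) * Nat.card (𝓞 K ⧸ d)ˣ := by rw [hcard]; ring
        _ ≤ _ := Nat.mul_le_mul_left _ hle
    · intro I J hIJ
      simp only [Prod.mk.injEq] at hIJ
      obtain ⟨h1, h2⟩ := hIJ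
      rw [QuotientGroup.eq] at h2
      obtain ⟨u, hu⟩ := h2
      have h3 : r J = r I * Units.map
          ((Ideal.Quotient.mk d : 𝓞 K →+* 𝓞 K ⧸ d) : 𝓞 K →* 𝓞 K ⧸ d) u := by
        rw [hu]
        group
      have h4 : x J - x I * u ∈ d := by
        rw [← Ideal.Quotient.eq, map_mul, hr, hr, h3]
        rfl
      have h5 : Ideal.span {x I * (u : 𝓞 K)} = Ideal.span {x I} :=
        Ideal.span_singleton_mul_right_unit u.isUnit _
      refine ⟨x J, x I * u, hx0 J, mul_ne_zero (hx0 I) u.ne_zero, hxm J, ?_, h4, ?_⟩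
      · rw [h5]
        exact hxm I
      · rw [h5]
        refine mul_canc (W (cl J)).2.1 ?_
        have h6 : (I : Ideal (𝓞 K)) * W (cl J) = Ideal.span {x I} := by
          rw [← h1]
          exact hx I
        calc (W (cl J) : Ideal (𝓞 K)) * (Ideal.span {x J} * I) =
            Ideal.span {x J} * ((I : Ideal (𝓞 K)) * W (cl J)) := by ring
          _ = Ideal.span {x I} * ((J : Ideal (𝓞 K)) * W (cl J)) := by rw [h6, hx]; ring
          _ = _ := by ring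

end Pool.Agent.H94.CV
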