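import Pool.Agent.H94.CV.HU

/-!
# Module F1, part 1: the coefficients `lam`
-/

set_option autoImplicit false

open NumberField NumberField.InfinitePlace Complex Filter Topology

namespace Pool.Agent.H94.CV

open Pool.Agent.H37.CV Pool.Agent.H28.RC Pool.Agent.H25.HK
open Pool.Agent.H99.RC (exQ sup_mul_top mul_canc span_ne mul_ne sup_top_of_le sup_top_of_le')

namespace F1

variable {K : Type} [Field K] [NumberField K]

theorem nm_ge_one {I : Ideal (𝓞 K)} (hI : I ≠ ⊥) : 1 ≤ nm I := by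
  unfold nm
  have h1 : Ideal.absNorm I ≠ 0 := by
    rw [Ne, Ideal.absNorm_eq_zero_iff]
    exact hI
  exact_mod_cast Nat.one_le_iff_ne_zero.2 h1

theorem nm_top : nm (⊤ : Ideal (𝓞 K)) = 1 := by
  unfold nm
  rw [Ideal.absNorm_top, Nat.cast_one]

theorem two_le_np (P : PrI K) : 2 ≤ np P := by
  unfold np nm
  have h0 : Ideal.absNorm P.1 ≠ 0 := by
    rw [Ne, Ideal.absNorm_eq_zero_iff]
    exact P.2.2
  have h1 : Ideal.absNorm P.1 ≠ 1 := by
    rw [Ne, Ideal.absNorm_eq_one_iff]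
    exact P.2.1.ne_top
  have h2 : 2 ≤ Ideal.absNorm P.1 := by omega
  exact_mod_cast h2

theorem one_le_nS (S : Finset (PrI K)) : 1 ≤ nS np S := by
  unfold nS
  have h1 : ∀ P ∈ S, (1 : ℝ) ≤ np P := fun P _ => by linarith [two_le_np P]
  calc (1 : ℝ) = ∏ P ∈ S, (1 : ℝ) := by rw [Finset.prod_const_one]
    _ ≤ _ := Finset.prod_le_prod (fun _ _ => zero_le_one) h1

theorem fin_pf {I : Ideal (𝓞 K)} (hI : I ≠ ⊥) : {P : PrI K | I ≤ P.1}.Finite := by
  classical
  have h1 : {P : Ideal (𝓞 K) | P.IsPrime ∧ I ≤ P}.Finite := by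
    refine ((UniqueFactorizationMonoid.normalizedFactors I).toFinset.finite_toSet).subset ?_
    intro P hP
    rw [Finset.mem_coe, Multiset.mem_toFinset, Ideal.mem_normalizedFactors_iff hI]
    exact hP
  refine Set.Finite.of_finite_image (f := Subtype.val) (h1.subset ?_)
    (Subtype.val_injective.injOn)
  rintro _ ⟨P, hP, rfl⟩
  exact ⟨P.2.1, hP⟩

theorem mem_pf {I : Ideal (𝓞 K)} (hI : I ≠ ⊥) (P : PrI K) : P ∈ pf I ↔ I ≤ P.1 := by
  unfold pf
  rw [dif_pos (fin_pf hI), Set.Finite.mem_toFinset]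
  rfl

theorem pf_top : pf (⊤ : Ideal (𝓞 K)) = ∅ := by
  refine Finset.eq_empty_of_forall_notMem fun P hP => ?_
  have h0 : (⊤ : Ideal (𝓞 K)) ≠ ⊥ := top_ne_bot
  rw [mem_pf h0] at hP
  exact P.2.1.ne_top (top_le_iff.1 hP)

theorem sub_pf {I : Ideal (𝓞 K)} (hI : I ≠ ⊥) {S : Finset (PrI K)} (h : idS S ∣ I) :
    S ⊆ pf I := by
  intro P hP
  rw [mem_pf hI]
  have h1 : P.1 ∣ idS S := by
    unfold idS
    exact Finset.dvd_prod_of_mem (fun P : PrI K => P.1) hP
  exact Ideal.le_of_dvd (h1.trans h)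

theorem mem_DM {M : ℝ} {S : Finset (PrI K)} (h : S ∈ DM K M) : S ⊆ PM K M ∧ nS np S ≤ M := by
  classical
  unfold DM DS at h
  rw [Finset.mem_filter, Finset.mem_powerset] at h
  exact h

/-- the bound for the weights -/
theorem xw_le (hCX : T_CX) {M : ℝ} (hM : 1 ≤ M) {S : Finset (PrI K)} (h : S ∈ DM K M) :
    |xw K M S| ≤ 1 :=
  (hCX (PrI K) np (PM K M) M two_le_np hM).2.2 S (mem_DM h).1

/-- the coefficients are bounded -/
theorem lam_le (hCX : T_CX) (A : ℕ) {C : ℝ} (hC : ∀ x : ℝ, 0 < x → ‖wf x‖ * x ^ A ≤ C)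
    {X M : ℝ} (hX : 0 < X) (hM : 1 ≤ M) {n : Ideal (𝓞 K)} (hn : n ≠ ⊥) :
    ‖lam X M n‖ ≤ C * 2 ^ (pf n).card * (X * M / nm n) ^ A := by
  classical
  have hn1 := nm_ge_one hn
  have hn0 : 0 < nm n := by linarith
  have hy : 0 < X * M / nm n := by positivity
  have hC0 : 0 ≤ C := le_trans (by positivity) (hC 1 one_pos)
  have h1 : ∀ S ∈ (DM K M).filter (fun S => idS S ∣ n),
      ‖(xw K M S : ℂ) * wf (nm n / (nS np S * X))‖ ≤ C * (X * M / nm n) ^ A := by
    intro S hS
    rw [Finset.mem_filter] at hS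
    have h2 := xw_le hCX hM hS.1
    have h3 := one_le_nS S
    have h4 := (mem_DM hS.1).2
    have h5 : 0 < nm n / (nS np S * X) := by positivity
    have h6 := hC _ h5
    rw [norm_mul, Complex.norm_real, Real.norm_eq_abs]
    have h7 : ‖wf (nm n / (nS np S * X))‖ ≤ C * (X * M / nm n) ^ A := by
      have h8 : ‖wf (nm n / (nS np S * X))‖ ≤ C * (nS np S * X / nm n) ^ A := by
        have h9 : (nm n / (nS np S * X)) ^ A * (nS np S * X / nm n) ^ A = 1 := by
          rw [← mul_pow]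
          have : nm n / (nS np S * X) * (nS np S * X / nm n) = 1 := by
            field_simp
          rw [this, one_pow]
        calc ‖wf (nm n / (nS np S * X))‖ = (‖wf (nm n / (nS np S * X))‖ *
              (nm n / (nS np S * X)) ^ A) * (nS np S * X / nm n) ^ A := by
              rw [mul_assoc, h9, mul_one]
          _ ≤ C * (nS np S * X / nm n) ^ A := mul_le_mul_of_nonneg_right h6 (by positivity)
      refine h8.trans (mul_le_mul_of_nonneg_left ?_ hC0)
      refine pow_le_pow_left₀ (by positivity) ?_ A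
      rw [div_le_div_iff_of_pos_right hn0, mul_comm X M]
      exact mul_le_mul_of_nonneg_right h4 hX.le
    calc |xw K M S| * ‖wf (nm n / (nS np S * X))‖ ≤ 1 * (C * (X * M / nm n) ^ A) :=
          mul_le_mul h2 h7 (norm_nonneg _) zero_le_one
      _ = _ := one_mul _
  unfold lam
  refine (norm_sum_le _ _).trans ((Finset.sum_le_sum h1).trans ?_)
  rw [Finset.sum_const, nsmul_eq_mul]
  have h2 : ((DM K M).filter (fun S => idS S ∣ n)).card ≤ 2 ^ (pf n).card := by
    rw [← Finset.card_powerset]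
    refine Finset.card_le_card fun S hS => ?_
    rw [Finset.mem_filter] at hS
    exact Finset.mem_powerset.2 (sub_pf hn hS.2)
  have h3 : (((DM K M).filter (fun S => idS S ∣ n)).card : ℝ) ≤ 2 ^ (pf n).card := by
    exact_mod_cast h2
  calc (((DM K M).filter (fun S => idS S ∣ n)).card : ℝ) * (C * (X * M / nm n) ^ A) ≤
        2 ^ (pf n).card * (C * (X * M / nm n) ^ A) :=
        mul_le_mul_of_nonneg_right h3 (by positivity)
    _ = _ := by ring

/-- the value at `⊤` -/
theorem lam_top (hCX : T_CX) {X M : ℝ} (hM : 1 ≤ M) :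
    lam X M (⊤ : Ideal (𝓞 K)) = wf (1 / X) := by
  classical
  have h0 : (⊤ : Ideal (𝓞 K)) ≠ ⊥ := top_ne_bot
  have h1 : (DM K M).filter (fun S => idS S ∣ (⊤ : Ideal (𝓞 K))) = {∅} := by
    ext S
    rw [Finset.mem_filter, Finset.mem_singleton]
    constructor
    · rintro ⟨-, hS⟩
      have h2 := sub_pf h0 hS
      rw [pf_top] at h2
      exact Finset.subset_empty.1 h2
    · rintro rfl
      refine ⟨?_, ?_⟩
      · unfold DM DS
        rw [Finset.mem_filter, Finset.mem_powerset]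
        refine ⟨Finset.empty_subset _, ?_⟩
        unfold nS
        rw [Finset.prod_empty]
        exact hM
      · unfold idS
        rw [Finset.prod_empty]
        exact one_dvd _
  unfold lam
  rw [h1, Finset.sum_singleton]
  have h2 : xw K M ∅ = 1 := (hCX (PrI K) np (PM K M) M two_le_np hM).1
  have h3 : nS (np (K := K)) ∅ = 1 := by
    unfold nS
    rw [Finset.prod_empty]
  rw [h2, h3, nm_top, one_mul]
  push_cast
  rw [one_mul]

/-- finiteness of the ideals of bounded norm -/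
theorem fin_nm (x : ℝ) : {I : Ideal (𝓞 K) | nm I ≤ x}.Finite := by
  refine (Ideal.finite_setOfPred_absNorm_le (S := 𝓞 K) ⌊x⌋₊).subset ?_
  intro I hI
  exact Nat.le_floor hI

end F1

end Pool.Agent.H94.CV
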