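import Pool.Agent.H94.CV.F1a

/-!
# Module F1, part 2: the short relations
-/

set_option autoImplicit false

open NumberField NumberField.InfinitePlace Complex Filter Topology

namespace Pool.Agent.H94.CV

open Pool.Agent.H37.CV Pool.Agent.H28.RC Pool.Agent.H25.HK

namespace F1

variable {K : Type} [Field K] [NumberField K]

theorem nm_rpow {n : Ideal (𝓞 K)} {x : ℝ} (hx : 1 ≤ x) (h : nm n = x ^ 2) :
    nm n ^ (-(1 / 2) : ℝ) = x⁻¹ := by
  rw [h, ← Real.rpow_natCast, ← Real.rpow_mul (by linarith)]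
  norm_num
  rw [Real.rpow_neg_one]

/-- the harmonic sum -/
theorem harm (J : ℕ) {B : ℝ} (hJB : (J : ℝ) ≤ B) (hB : 1 ≤ B) :
    ∑ j ∈ Finset.Icc 1 J, ((j : ℝ))⁻¹ ≤ 1 + Real.log B := by
  have h1 : ∑ j ∈ Finset.Icc 1 J, ((j : ℝ))⁻¹ = ((harmonic J : ℚ) : ℝ) := by
    rw [harmonic_eq_sum_Icc]
    push_cast
    rfl
  rw [h1]
  refine (harmonic_le_one_add_log J).trans ?_
  rcases Nat.eq_zero_or_pos J with h | h
  · rw [h, Nat.cast_zero, Real.log_zero]
    linarith [Real.log_nonneg hB]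
  · have : Real.log J ≤ Real.log B := Real.log_le_log (by exact_mod_cast h) hJB
    linarith

section


/-- all real relations -/
theorem short1 (hDV : T_DV) (ε : ℝ) (hε : 0 < ε) : ∃ C : ℝ, 0 ≤ C ∧ ∀ (B : ℝ)
    (Y : Finset (Ideal (𝓞 K))), 1 ≤ B →
    (∀ n ∈ Y, ∃ y₁ y₂ : Ideal (𝓞 (Kp K)), Real2 (n, ⊤) y₁ y₂ ∧ nm y₁ ≤ B) →
    ∑ n ∈ Y, (2 : ℝ) ^ (pf n).card * nm n ^ (-(1 / 2) : ℝ) ≤ C * B ^ ε * (1 + Real.log B) := by
  classical
  obtain ⟨C₁, hC₁, -, hd⟩ := (hDV K).1 (ε / 2) (by positivity)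
  obtain ⟨C₂, hs⟩ := (hDV (Kp K)).2
  refine ⟨C₁ * max C₂ 0, by positivity, fun B Y hB hY => ?_⟩
  have hY' : ∀ n : Ideal (𝓞 K), ∃ y : Ideal (𝓞 (Kp K)), n ∈ Y → y ≠ ⊥ ∧
      n = y.map (algebraMap (𝓞 (Kp K)) (𝓞 K)) ∧ nm n = nm y ^ 2 ∧ nm y ≤ B := by
    intro n
    by_cases hn : n ∈ Y
    · obtain ⟨y₁, y₂, ⟨h1, -, h2, -, h3, -⟩, h4⟩ := hY n hn
      exact ⟨y₁, fun _ => ⟨h1, h2, h3, h4⟩⟩
    · exact ⟨⊥, fun h => absurd h hn⟩
  choose y hy using hY'
  have hinj : Set.InjOn y (Y : Set (Ideal (𝓞 K))) := by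
    intro a ha b hb hab
    rw [(hy a ha).2.1, (hy b hb).2.1, hab]
  have h1 : ∀ n ∈ Y, (2 : ℝ) ^ (pf n).card * nm n ^ (-(1 / 2) : ℝ) ≤
      C₁ * B ^ ε * (nm (y n))⁻¹ := by
    intro n hn
    obtain ⟨h2, h3, h4, h5⟩ := hy n hn
    have h6 := nm_ge_one h2
    have hn0 : n ≠ ⊥ := by
      rintro rfl
      have h7 : nm (⊥ : Ideal (𝓞 K)) = 0 := by
        unfold nm
        rw [Ideal.absNorm_bot, Nat.cast_zero]
      rw [h7] at h4
      nlinarith
    rw [nm_rpow h6 h4]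
    refine mul_le_mul_of_nonneg_right ?_ (by positivity)
    refine (hd n hn0).trans (mul_le_mul_of_nonneg_left ?_ (by linarith))
    rw [h4, ← Real.rpow_natCast, ← Real.rpow_mul (by linarith)]
    have h7 : ((2 : ℕ) : ℝ) * (ε / 2) = ε := by push_cast; ring
    rw [h7]
    exact Real.rpow_le_rpow (by linarith) h5 hε.le
  have hBe : 0 < B ^ ε := Real.rpow_pos_of_pos (by linarith) _
  have hlog := Real.log_nonneg hB
  calc ∑ n ∈ Y, (2 : ℝ) ^ (pf n).card * nm n ^ (-(1 / 2) : ℝ) ≤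
        ∑ n ∈ Y, C₁ * B ^ ε * (nm (y n))⁻¹ := Finset.sum_le_sum h1
    _ = C₁ * B ^ ε * ∑ I ∈ Y.image y, (nm I)⁻¹ := by
        rw [Finset.sum_image hinj, Finset.mul_sum]
    _ ≤ C₁ * B ^ ε * (max C₂ 0 * (1 + Real.log B)) := by
        refine mul_le_mul_of_nonneg_left ?_ (by positivity)
        refine ((hs B (Y.image y) hB ?_).2).trans
          (mul_le_mul_of_nonneg_right (le_max_left _ _) (by linarith))
        intro I hI
        obtain ⟨n, hn, rfl⟩ := Finset.mem_image.1 hI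
        exact ⟨(hy n hn).1, (hy n hn).2.2.2⟩
    _ = _ := by ring

/-- the real relations with the congruence -/
theorem short2 (hDV : T_DV) (ε : ℝ) (hε : 0 < ε) : ∃ C : ℝ, 0 ≤ C ∧ ∀ (q : ℕ) (B : ℝ)
    (Y : Finset (Ideal (𝓞 K))), 3 ≤ q → 1 ≤ B →
    (∀ n ∈ Y, n ≠ ⊤ ∧ ∃ y₁ y₂ : Ideal (𝓞 (Kp K)), Real2 (n, ⊤) y₁ y₂ ∧ Cg q y₁ y₂ ∧ nm y₁ ≤ B) →
    ∑ n ∈ Y, (2 : ℝ) ^ (pf n).card * nm n ^ (-(1 / 2) : ℝ) ≤
      C * B ^ ε * (1 + Real.log B) / q := by
  classical
  obtain ⟨C₁, hC₁, -, hd⟩ := (hDV K).1 (ε / 4) (by positivity)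
  obtain ⟨C₃, hC₃, hcnt, -⟩ := (hDV (Kp K)).1 (ε / 2) (by positivity)
  refine ⟨4 * C₁ * C₃, by positivity, fun q B Y hq hB hY => ?_⟩
  have hY' : ∀ n : Ideal (𝓞 K), ∃ (y : Ideal (𝓞 (Kp K))) (j : ℕ), n ∈ Y → y ≠ ⊥ ∧
      n = y.map (algebraMap (𝓞 (Kp K)) (𝓞 K)) ∧ nm n = nm y ^ 2 ∧ nm y ≤ B ∧ 1 ≤ j ∧
      (Ideal.absNorm y = q * j - 1 ∨ Ideal.absNorm y = q * j + 1) := by
    intro n
    by_cases hn : n ∈ Y
    · obtain ⟨hnt, y₁, y₂, ⟨h1, h1', h2, -, h3, h3'⟩, h4, h5⟩ := hY n hn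
      have h6 : Ideal.absNorm y₂ = 1 := by
        have h7 := nm_ge_one h1'
        rw [nm_top] at h3'
        have h8 : nm y₂ = 1 := by nlinarith
        unfold nm at h8
        exact_mod_cast h8
      have h7 : Ideal.absNorm y₁ ≠ 1 := by
        intro h8
        apply hnt
        rw [← Ideal.absNorm_eq_one_iff]
        have h9 : nm n = 1 := by
          rw [h3]
          unfold nm
          rw [h8]
          norm_num
        unfold nm at h9
        exact_mod_cast h9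
      have h8 : 1 ≤ Ideal.absNorm y₁ := by
        have := nm_ge_one h1
        unfold nm at this
        exact_mod_cast this
      unfold Cg at h4
      rw [h6] at h4
      rcases h4 with ⟨j, hj⟩ | ⟨j, hj⟩
      · have hj1 : 1 ≤ j := by
          by_contra h
          have h9 : (q : ℤ) * j ≤ 0 := mul_nonpos_of_nonneg_of_nonpos (by positivity) (by omega)
          push_cast at hj
          omega
        obtain ⟨j', rfl⟩ := Int.eq_ofNat_of_zero_le (by omega : 0 ≤ j)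
        refine ⟨y₁, j', fun _ => ⟨h1, h2, h3, h5, by omega, Or.inr ?_⟩⟩
        push_cast at hj
        have : (Ideal.absNorm y₁ : ℤ) = ((q * j' + 1 : ℕ) : ℤ) := by
          push_cast
          linarith
        exact_mod_cast this
      · have hj1 : 1 ≤ j := by
          by_contra h
          have h9 : (q : ℤ) * j ≤ 0 := mul_nonpos_of_nonneg_of_nonpos (by positivity) (by omega)
          push_cast at hj
          omega
        obtain ⟨j', rfl⟩ := Int.eq_ofNat_of_zero_le (by omega : 0 ≤ j)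
        refine ⟨y₁, j', fun _ => ⟨h1, h2, h3, h5, by omega, Or.inl ?_⟩⟩
        push_cast at hj
        have : ((Ideal.absNorm y₁ + 1 : ℕ) : ℤ) = ((q * j' : ℕ) : ℤ) := by
          push_cast
          linarith
        have h10 : Ideal.absNorm y₁ + 1 = q * j' := by exact_mod_cast this
        omega
    · exact ⟨⊥, 0, fun h => absurd h hn⟩
  choose y j hy using hY'
  have hinj : Set.InjOn y (Y : Set (Ideal (𝓞 K))) := by
    intro a ha b hb hab
    rw [(hy a ha).2.1, (hy b hb).2.1, hab]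
  have hq0 : (0 : ℝ) < q := by
    have : 0 < q := by omega
    exact_mod_cast this
  have hq3 : (3 : ℝ) ≤ q := by exact_mod_cast hq
  have h1 : ∀ n ∈ Y, (2 : ℝ) ^ (pf n).card * nm n ^ (-(1 / 2) : ℝ) ≤
      C₁ * B ^ (ε / 2) * (2 / q * ((j n : ℝ))⁻¹) := by
    intro n hn
    obtain ⟨h2, h3, h4, h5, h6', h7'⟩ := hy n hn
    have h6 := nm_ge_one h2
    have hn0 : n ≠ ⊥ := by
      rintro rfl
      have h7 : nm (⊥ : Ideal (𝓞 K)) = 0 := by
        unfold nm
        rw [Ideal.absNorm_bot, Nat.cast_zero]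
      rw [h7] at h4
      nlinarith
    rw [nm_rpow h6 h4]
    have hj0 : (1 : ℝ) ≤ j n := by exact_mod_cast h6'
    have h8 : (q : ℝ) * j n / 2 ≤ nm (y n) := by
      have h9 : q * j n ≤ Ideal.absNorm (y n) + 1 := by omega
      have h10 : (q : ℝ) * j n ≤ nm (y n) + 1 := by
        unfold nm
        exact_mod_cast h9
      have h11 : (2 : ℝ) ≤ q * j n := by nlinarith
      linarith
    have h9 : (nm (y n))⁻¹ ≤ 2 / q * ((j n : ℝ))⁻¹ := by
      rw [div_mul_eq_mul_div, le_div_iff₀ hq0, inv_mul_le_iff₀ (by linarith), ← div_eq_mul_inv,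
        mul_div_assoc', le_div_iff₀ (by linarith)]
      linarith
    have h10 : (2 : ℝ) ^ (pf n).card ≤ C₁ * B ^ (ε / 2) := by
      refine (hd n hn0).trans (mul_le_mul_of_nonneg_left ?_ (by linarith))
      rw [h4, ← Real.rpow_natCast, ← Real.rpow_mul (by linarith)]
      have h7 : ((2 : ℕ) : ℝ) * (ε / 4) = ε / 2 := by push_cast; ring
      rw [h7]
      exact Real.rpow_le_rpow (by linarith) h5 (by positivity)
    exact mul_le_mul h10 h9 (by positivity) (by positivity)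
  have hBe : 0 < B ^ (ε / 2) := Real.rpow_pos_of_pos (by linarith) _
  have hlog := Real.log_nonneg hB
  have hk : ∀ k : ℕ, ((Y.filter (fun n => Ideal.absNorm (y n) = k)).card : ℝ) ≤
      C₃ * B ^ (ε / 2) := by
    intro k
    rcases (Y.filter (fun n => Ideal.absNorm (y n) = k)).eq_empty_or_nonempty with h | ⟨n, hn⟩
    · rw [h, Finset.card_empty, Nat.cast_zero]
      positivity
    · rw [Finset.mem_filter] at hn
      have h2 := nm_ge_one (hy n hn.1).1
      have h3 := (hy n hn.1).2.2.2.1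
      unfold nm at h2 h3
      rw [hn.2] at h2 h3
      have h4 := hcnt k (by exact_mod_cast h2)
        ((Y.filter (fun n => Ideal.absNorm (y n) = k)).image y) (by
          intro I hI
          obtain ⟨n', hn', rfl⟩ := Finset.mem_image.1 hI
          exact (Finset.mem_filter.1 hn').2)
      rw [Finset.card_image_of_injOn (hinj.mono (by
        intro a ha
        exact (Finset.mem_filter.1 ha).1))] at h4
      refine h4.trans (mul_le_mul_of_nonneg_left ?_ (by linarith))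
      exact Real.rpow_le_rpow (by linarith) h3 (by positivity)
  have hcard : ∀ i : ℕ, ((Y.filter (fun n => j n = i)).card : ℝ) ≤ 2 * (C₃ * B ^ (ε / 2)) := by
    intro i
    have h2 : Y.filter (fun n => j n = i) ⊆ Y.filter (fun n => Ideal.absNorm (y n) = q * i - 1) ∪
        Y.filter (fun n => Ideal.absNorm (y n) = q * i + 1) := by
      intro n hn
      rw [Finset.mem_filter] at hn
      rw [Finset.mem_union, Finset.mem_filter, Finset.mem_filter]
      have h3 := (hy n hn.1).2.2.2.2.2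
      rw [hn.2] at h3
      rcases h3 with h3 | h3
      · exact Or.inl ⟨hn.1, h3⟩
      · exact Or.inr ⟨hn.1, h3⟩
    have h3 := (Finset.card_le_card h2).trans (Finset.card_union_le _ _)
    have h4 : ((Y.filter (fun n => j n = i)).card : ℝ) ≤
        ((Y.filter (fun n => Ideal.absNorm (y n) = q * i - 1)).card : ℝ) +
        ((Y.filter (fun n => Ideal.absNorm (y n) = q * i + 1)).card : ℝ) := by exact_mod_cast h3
    linarith [hk (q * i - 1), hk (q * i + 1)]
  have himg : Y.image j ⊆ Finset.Icc 1 ⌊B⌋₊ := by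
    intro i hi
    obtain ⟨n, hn, rfl⟩ := Finset.mem_image.1 hi
    obtain ⟨h2, h3, h4, h5, h6', h7'⟩ := hy n hn
    rw [Finset.mem_Icc]
    refine ⟨h6', Nat.le_floor ?_⟩
    refine le_trans ?_ h5
    unfold nm
    have h8 : j n ≤ Ideal.absNorm (y n) := by
      have h9 : 3 * j n ≤ q * j n := Nat.mul_le_mul_right _ hq
      omega
    exact_mod_cast h8
  calc ∑ n ∈ Y, (2 : ℝ) ^ (pf n).card * nm n ^ (-(1 / 2) : ℝ) ≤
        ∑ n ∈ Y, C₁ * B ^ (ε / 2) * (2 / q * ((j n : ℝ))⁻¹) := Finset.sum_le_sum h1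
    _ = C₁ * B ^ (ε / 2) * (2 / q) * ∑ n ∈ Y, ((j n : ℝ))⁻¹ := by
        rw [Finset.mul_sum]
        refine Finset.sum_congr rfl fun n _ => ?_
        ring
    _ = C₁ * B ^ (ε / 2) * (2 / q) * ∑ i ∈ Y.image j,
          ((Y.filter (fun n => j n = i)).card : ℝ) * ((i : ℝ))⁻¹ := by
        congr 1
        rw [Finset.sum_comp (fun i : ℕ => ((i : ℝ))⁻¹) j]
        refine Finset.sum_congr rfl fun i _ => ?_
        rw [nsmul_eq_mul]
    _ ≤ C₁ * B ^ (ε / 2) * (2 / q) * ∑ i ∈ Finset.Icc 1 ⌊B⌋₊,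
          2 * (C₃ * B ^ (ε / 2)) * ((i : ℝ))⁻¹ := by
        refine mul_le_mul_of_nonneg_left ?_ (by positivity)
        refine (Finset.sum_le_sum fun i _ => mul_le_mul_of_nonneg_right (hcard i)
          (by positivity)).trans ?_
        exact Finset.sum_le_sum_of_subset_of_nonneg himg (fun i _ _ => by positivity)
    _ ≤ C₁ * B ^ (ε / 2) * (2 / q) * (2 * (C₃ * B ^ (ε / 2)) * (1 + Real.log B)) := by
        refine mul_le_mul_of_nonneg_left ?_ (by positivity)
        rw [← Finset.mul_sum]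
        exact mul_le_mul_of_nonneg_left (harm _ (Nat.floor_le (by linarith)) hB) (by positivity)
    _ = 4 * C₁ * C₃ * (B ^ (ε / 2) * B ^ (ε / 2)) * (1 + Real.log B) / q := by ring
    _ = _ := by
        rw [← Real.rpow_add (by linarith)]
        congr 4
        ring

end

end F1

end Pool.Agent.H94.CV
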