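import Pool.Agent.H94.CV.F1b

/-!
# Module F1, part 3: the long relations and the tail
-/

set_option autoImplicit false

open NumberField NumberField.InfinitePlace Complex Filter Topology

namespace Pool.Agent.H94.CV

open Pool.Agent.H37.CV Pool.Agent.H28.RC Pool.Agent.H25.HK

namespace F1

variable (K : Type) [Field K] [NumberField K]

theorem nm_qi (q : ℕ) : nm (qi K q) = (q : ℝ) ^ Module.finrank ℚ K := by
  unfold nm qi
  rw [Ideal.absNorm_span_natCast, RingOfIntegers.rank]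
  push_cast
  rfl

theorem one_le_discr : 1 ≤ |(discr K : ℝ)| := by
  have h := NumberField.discr_ne_zero K
  have h1 : 1 ≤ |discr K| := Int.one_le_abs h
  exact_mod_cast h1

theorem qi_ne {q : ℕ} (hq : 1 ≤ q) : qi K q ≠ ⊥ := by
  unfold qi
  rw [Ne, Ideal.span_singleton_eq_bot, Nat.cast_eq_zero]
  omega

theorem nm_le_of_le {q : ℕ} (hq : 1 ≤ q) {d : Ideal (𝓞 K)} (hd : qi K q ≤ d) :
    1 ≤ nm d ∧ nm d ≤ (q : ℝ) ^ Module.finrank ℚ K := by
  have hd0 : d ≠ ⊥ := by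
    rintro rfl
    exact qi_ne K hq (le_bot_iff.1 hd)
  refine ⟨nm_ge_one hd0, ?_⟩
  rw [← nm_qi]
  unfold nm
  have h1 : Ideal.absNorm d ∣ Ideal.absNorm (qi K q) := Ideal.absNorm_dvd_absNorm_of_le hd
  have h2 : Ideal.absNorm (qi K q) ≠ 0 := by
    rw [Ne, Ideal.absNorm_eq_zero_iff]
    exact qi_ne K hq
  exact_mod_cast Nat.le_of_dvd (Nat.pos_of_ne_zero h2) h1

/-- bounds for the length of the first sum -/
theorem Xq_bounds {q : ℕ} (hq : 1 ≤ q) : (q : ℝ) ≤ Xq K q ∧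
    Xq K q ≤ |(discr K : ℝ)| ^ 2 * (q : ℝ) ^ ((Module.finrank ℚ K : ℝ) + 1 / 4) := by
  have hN : 1 ≤ Module.finrank ℚ K := Module.finrank_pos
  set N := Module.finrank ℚ K with hNdef
  have hN1 : (1 : ℝ) ≤ N := by exact_mod_cast hN
  have hD := one_le_discr K
  set D := |(discr K : ℝ)| with hDdef
  have hq1 : (1 : ℝ) ≤ q := by exact_mod_cast hq
  have hc : cnd K (qi K q) = D * (q : ℝ) ^ N := by
    unfold cnd
    rw [nm_qi]
  have hqN : (q : ℝ) ≤ (q : ℝ) ^ N := by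
    calc (q : ℝ) = (q : ℝ) ^ 1 := (pow_one _).symm
      _ ≤ (q : ℝ) ^ N := pow_le_pow_right₀ hq1 hN
  have hc1 : (q : ℝ) ≤ D * (q : ℝ) ^ N := by nlinarith
  have he : 0 < 1 / (4 * (N : ℝ)) := by positivity
  have he1 : 1 / (4 * (N : ℝ)) ≤ 1 := by
    rw [div_le_one (by positivity)]
    linarith
  unfold Xq
  rw [← hNdef, hc]
  constructor
  · calc (q : ℝ) ≤ D * (q : ℝ) ^ N := hc1
      _ = (D * (q : ℝ) ^ N) ^ (1 : ℝ) := (Real.rpow_one _).symm
      _ ≤ _ := Real.rpow_le_rpow_of_exponent_le (by linarith) (by linarith)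
  · rw [Real.mul_rpow (by linarith) (by positivity)]
    refine mul_le_mul ?_ (le_of_eq ?_) (by positivity) (by positivity)
    · rw [← Real.rpow_natCast D 2]
      exact Real.rpow_le_rpow_of_exponent_le hD (by push_cast; linarith)
    · rw [← Real.rpow_natCast, ← Real.rpow_mul (by linarith)]
      congr 1
      field_simp

variable {K}

/-- the terms with a large norm -/
theorem tail (hCX : T_CX) (hWV : T_WV) (hDV : T_DV) : ∃ C : ℝ, 0 ≤ C ∧
    (∀ (q : ℕ) (M : ℝ) (n : Ideal (𝓞 K)), 1 ≤ q → 1 ≤ M → M ≤ q → n ≠ ⊥ →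
      Xq K q * (q : ℝ) ^ (9 / 8 : ℝ) < nm n →
      ‖lam (Xq K q) M n‖ * nm n ^ (-(1 / 2) : ℝ) ≤
        C * (q : ℝ) ^ (-((Module.finrank ℚ K : ℝ) + 1)) * (nm n ^ 2)⁻¹) ∧
    ∀ (X M : ℝ) (n : Ideal (𝓞 K)), 0 < X → 1 ≤ M → n ≠ ⊥ →
      ‖lam X M n‖ * nm n ^ (-(1 / 2) : ℝ) ≤ C * (X * M) ^ 2 * (nm n ^ 2)⁻¹ := by
  set N := Module.finrank ℚ K with hNdef
  obtain ⟨C₁, hC₁⟩ := hWV.1 (8 * (3 * N + 4) + 2)
  obtain ⟨C₂, hC₂⟩ := hWV.1 2
  obtain ⟨C₃, hC₃1, -, hC₃⟩ := (hDV K).1 (1 / 2) (by norm_num)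
  have hC₁0 : 0 ≤ C₁ := le_trans (by positivity) (hC₁ 1 one_pos).1
  have hC₂0 : 0 ≤ C₂ := le_trans (by positivity) (hC₂ 1 one_pos).1
  have hD := one_le_discr K
  set D := |(discr K : ℝ)| with hDdef
  have hgen : ∀ (A : ℕ) (C : ℝ), 0 ≤ C → (∀ x : ℝ, 0 < x → ‖wf x‖ * x ^ A ≤ C) →
      ∀ (X M : ℝ) (n : Ideal (𝓞 K)), 0 < X → 1 ≤ M → n ≠ ⊥ →
      ‖lam X M n‖ * nm n ^ (-(1 / 2) : ℝ) ≤ C * C₃ * (X * M / nm n) ^ A := by
    intro A C hC0 hC X M n hX hM hn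
    have h1 := lam_le hCX A hC hX hM hn
    have h2 := nm_ge_one hn
    have h3 : (2 : ℝ) ^ (pf n).card * nm n ^ (-(1 / 2) : ℝ) ≤ C₃ := by
      calc (2 : ℝ) ^ (pf n).card * nm n ^ (-(1 / 2) : ℝ) ≤
            (C₃ * nm n ^ (1 / 2 : ℝ)) * nm n ^ (-(1 / 2) : ℝ) :=
            mul_le_mul_of_nonneg_right (hC₃ n hn) (by positivity)
        _ = C₃ := by
            rw [mul_assoc, ← Real.rpow_add (by linarith)]
            norm_num
    have hpos : 0 ≤ (X * M / nm n) ^ A := by positivity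
    calc ‖lam X M n‖ * nm n ^ (-(1 / 2) : ℝ) ≤
          (C * 2 ^ (pf n).card * (X * M / nm n) ^ A) * nm n ^ (-(1 / 2) : ℝ) :=
          mul_le_mul_of_nonneg_right h1 (by positivity)
      _ = C * (X * M / nm n) ^ A * ((2 : ℝ) ^ (pf n).card * nm n ^ (-(1 / 2) : ℝ)) := by ring
      _ ≤ C * (X * M / nm n) ^ A * C₃ := mul_le_mul_of_nonneg_left h3 (by positivity)
      _ = _ := by ring
  refine ⟨max (C₁ * C₃ * D ^ 4) (C₂ * C₃), by positivity, ?_, ?_⟩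
  · intro q M n hq hM hMq hn hlarge
    have hq1 : (1 : ℝ) ≤ q := by exact_mod_cast hq
    have hq0 : (0 : ℝ) < q := by linarith
    obtain ⟨hX1, hX2⟩ := Xq_bounds K hq
    rw [← hNdef, ← hDdef] at hX2
    set X := Xq K q with hXdef
    have hX0 : 0 < X := by linarith
    have h2 := nm_ge_one hn
    have h1 := hgen _ C₁ hC₁0 (fun x hx => (hC₁ x hx).1) X M n hX0 hM hn
    have hn0 : 0 < nm n := by linarith
    have hy0 : 0 ≤ X * M / nm n := by positivity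
    have hy1 : X * M / nm n ≤ (q : ℝ) ^ (-(1 / 8) : ℝ) := by
      rw [div_le_iff₀ hn0]
      calc X * M ≤ X * q := mul_le_mul_of_nonneg_left hMq hX0.le
        _ = (q : ℝ) ^ (-(1 / 8) : ℝ) * (X * (q : ℝ) ^ (9 / 8 : ℝ)) := by
            have h3 : (q : ℝ) = (q : ℝ) ^ (-(1 / 8) : ℝ) * (q : ℝ) ^ (9 / 8 : ℝ) := by
              rw [← Real.rpow_add hq0]
              norm_num
            calc X * (q : ℝ) = X * ((q : ℝ) ^ (-(1 / 8) : ℝ) * (q : ℝ) ^ (9 / 8 : ℝ)) := by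
                  rw [← h3]
              _ = _ := by ring
        _ ≤ (q : ℝ) ^ (-(1 / 8) : ℝ) * nm n := mul_le_mul_of_nonneg_left hlarge.le (by positivity)
    have hy2 : (X * M / nm n) ^ (8 * (3 * N + 4)) ≤ (q : ℝ) ^ (-(3 * (N : ℝ) + 4)) := by
      calc (X * M / nm n) ^ (8 * (3 * N + 4)) ≤
            ((q : ℝ) ^ (-(1 / 8) : ℝ)) ^ (8 * (3 * N + 4)) := pow_le_pow_left₀ hy0 hy1 _
        _ = _ := by
            rw [← Real.rpow_natCast, ← Real.rpow_mul hq0.le]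
            congr 1
            push_cast
            ring
    have hy3 : (X * M) ^ 2 ≤ D ^ 4 * (q : ℝ) ^ (2 * (N : ℝ) + 5 / 2) := by
      have h3 : X * M ≤ D ^ 2 * (q : ℝ) ^ ((N : ℝ) + 5 / 4) := by
        calc X * M ≤ (D ^ 2 * (q : ℝ) ^ ((N : ℝ) + 1 / 4)) * q :=
              mul_le_mul hX2 hMq (by linarith) (by positivity)
          _ = D ^ 2 * ((q : ℝ) ^ ((N : ℝ) + 1 / 4) * (q : ℝ) ^ (1 : ℝ)) := by
              rw [Real.rpow_one]
              ring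
          _ = _ := by
              rw [← Real.rpow_add hq0]
              congr 2
              ring
      calc (X * M) ^ 2 ≤ (D ^ 2 * (q : ℝ) ^ ((N : ℝ) + 5 / 4)) ^ 2 :=
            pow_le_pow_left₀ (by positivity) h3 2
        _ = D ^ 4 * ((q : ℝ) ^ ((N : ℝ) + 5 / 4)) ^ 2 := by ring
        _ = _ := by
            rw [← Real.rpow_natCast ((q : ℝ) ^ ((N : ℝ) + 5 / 4)) 2, ← Real.rpow_mul hq0.le]
            congr 2
            push_cast
            ring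
    have hprod : (q : ℝ) ^ (-(3 * (N : ℝ) + 4)) * (q : ℝ) ^ (2 * (N : ℝ) + 5 / 2) ≤
        (q : ℝ) ^ (-((N : ℝ) + 1)) := by
      rw [← Real.rpow_add hq0]
      exact Real.rpow_le_rpow_of_exponent_le hq1 (by linarith)
    calc ‖lam X M n‖ * nm n ^ (-(1 / 2) : ℝ) ≤
          C₁ * C₃ * (X * M / nm n) ^ (8 * (3 * N + 4) + 2) := h1
      _ = C₁ * C₃ * ((X * M / nm n) ^ (8 * (3 * N + 4)) * (X * M) ^ 2) * (nm n ^ 2)⁻¹ := by
          rw [pow_add, div_pow (X * M) (nm n) 2]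
          ring
      _ ≤ C₁ * C₃ * ((q : ℝ) ^ (-(3 * (N : ℝ) + 4)) *
            (D ^ 4 * (q : ℝ) ^ (2 * (N : ℝ) + 5 / 2))) * (nm n ^ 2)⁻¹ := by
          refine mul_le_mul_of_nonneg_right (mul_le_mul_of_nonneg_left ?_ (by positivity))
            (by positivity)
          exact mul_le_mul hy2 hy3 (by positivity) (by positivity)
      _ = C₁ * C₃ * D ^ 4 * ((q : ℝ) ^ (-(3 * (N : ℝ) + 4)) *
            (q : ℝ) ^ (2 * (N : ℝ) + 5 / 2)) * (nm n ^ 2)⁻¹ := by ring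
      _ ≤ C₁ * C₃ * D ^ 4 * (q : ℝ) ^ (-((N : ℝ) + 1)) * (nm n ^ 2)⁻¹ :=
          mul_le_mul_of_nonneg_right (mul_le_mul_of_nonneg_left hprod (by positivity))
            (by positivity)
      _ ≤ _ := by
          refine mul_le_mul_of_nonneg_right (mul_le_mul_of_nonneg_right (le_max_left _ _)
            (by positivity)) (by positivity)
  · intro X M n hX hM hn
    have h2 := nm_ge_one hn
    have h1 := hgen 2 C₂ hC₂0 (fun x hx => (hC₂ x hx).1) X M n hX hM hn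
    have hn0 : 0 < nm n := by linarith
    calc ‖lam X M n‖ * nm n ^ (-(1 / 2) : ℝ) ≤ C₂ * C₃ * (X * M / nm n) ^ 2 := h1
      _ = C₂ * C₃ * (X * M) ^ 2 * (nm n ^ 2)⁻¹ := by
          rw [div_pow]
          ring
      _ ≤ _ := by
          refine mul_le_mul_of_nonneg_right (mul_le_mul_of_nonneg_right (le_max_right _ _)
            (by positivity)) (by positivity)

/-- the long relations -/
theorem long (hPS : Pool.Agent.H37.CV.T_PS) {c : ℝ} (hc : 0 < c) : ∃ C : ℝ, 0 ≤ C ∧ ∀ (q : ℕ) (d : Ideal (𝓞 K))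
    (Y : Finset (Ideal (𝓞 K))), 1 ≤ q → qi K q ≤ d →
    (∀ n ∈ Y, (n, ⊤) ∈ CP (qi K q) d ∧ c * nm d ^ 2 ≤ nm n * (q : ℝ) ^ Module.finrank ℚ K ∧
      nm n ≤ Xq K q * (q : ℝ) ^ (9 / 8 : ℝ)) →
    ∑ n ∈ Y, (2 : ℝ) ^ (pf n).card * nm n ^ (-(1 / 2) : ℝ) ≤
      C * uc d * (q : ℝ) ^ ((Module.finrank ℚ K : ℝ) / 2 + 3 / 4) / nm d := by
  classical
  set N := Module.finrank ℚ K with hNdef
  have hD := one_le_discr K
  set D := |(discr K : ℝ)| with hDdef
  set ε : ℝ := 1 / (16 * ((N : ℝ) + 2)) with hε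
  have hN0 : (0 : ℝ) ≤ N := Nat.cast_nonneg N
  have hε0 : 0 < ε := by positivity
  have hε1 : ε ≤ 1 := by
    rw [hε, div_le_one (by positivity)]
    linarith
  have hεN : ((N : ℝ) + 11 / 8) * ε ≤ 1 / 16 := by
    rw [hε, mul_one_div, div_le_div_iff₀ (by positivity) (by positivity)]
    linarith
  obtain ⟨C, hC⟩ := hPS K ε hε0
  refine ⟨|C| * D ^ 2 * (c ^ (-(1 / 2) : ℝ) + D), by positivity, fun q d Y hq hd hY => ?_⟩
  have hq1 : (1 : ℝ) ≤ q := by exact_mod_cast hq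
  have hq0 : (0 : ℝ) < q := by linarith
  obtain ⟨hd1, hd2⟩ := nm_le_of_le K hq hd
  rw [← hNdef] at hd2
  have hd0 : 0 < nm d := by linarith
  obtain ⟨hX1, hX2⟩ := Xq_bounds K hq
  rw [← hNdef, ← hDdef] at hX2
  set X := Xq K q with hXdef
  have hX0 : 0 < X := by linarith
  set R := X * (q : ℝ) ^ (9 / 8 : ℝ) with hR
  have hR0 : 0 < R := by positivity
  have hqN : 0 < (q : ℝ) ^ N := by positivity
  set L := max 1 (c * nm d ^ 2 / (q : ℝ) ^ N) with hL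
  rcases Y.eq_empty_or_nonempty with rfl | ⟨n₀, hn₀⟩
  · rw [Finset.sum_empty]
    positivity
  have hnL : ∀ n ∈ Y, L ≤ nm n := by
    intro n hn
    obtain ⟨h1, h2, h3⟩ := hY n hn
    refine max_le (nm_ge_one h1.1) ?_
    rw [div_le_iff₀ hqN]
    exact h2
  have hLR : L ≤ R := (hnL n₀ hn₀).trans (hY n₀ hn₀).2.2
  have h1 := hC (qi K q) d L R (Y.image fun n => (n, ⊤)) (qi_ne K hq) hd (le_max_left _ _) hLR ?_
  · rw [Finset.sum_image (fun a _ b _ h => (Prod.mk.inj h).1)] at h1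
    simp only [pf_top, nm_top, Finset.card_empty, add_zero, mul_one] at h1
    refine h1.trans ?_
    have hRb : R ≤ D ^ 2 * (q : ℝ) ^ ((N : ℝ) + 11 / 8) := by
      calc R ≤ (D ^ 2 * (q : ℝ) ^ ((N : ℝ) + 1 / 4)) * (q : ℝ) ^ (9 / 8 : ℝ) :=
            mul_le_mul_of_nonneg_right hX2 (by positivity)
        _ = D ^ 2 * ((q : ℝ) ^ ((N : ℝ) + 1 / 4) * (q : ℝ) ^ (9 / 8 : ℝ)) := by ring
        _ = _ := by
            rw [← Real.rpow_add hq0]
            congr 2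
            ring
    have hRe : R ^ ε ≤ D ^ 2 * (q : ℝ) ^ (1 / 16 : ℝ) := by
      calc R ^ ε ≤ (D ^ 2 * (q : ℝ) ^ ((N : ℝ) + 11 / 8)) ^ ε :=
            Real.rpow_le_rpow hR0.le hRb hε0.le
        _ = (D ^ 2) ^ ε * (q : ℝ) ^ (((N : ℝ) + 11 / 8) * ε) := by
            rw [Real.mul_rpow (by positivity) (by positivity), ← Real.rpow_mul hq0.le]
        _ ≤ D ^ 2 * (q : ℝ) ^ (1 / 16 : ℝ) := by
            refine mul_le_mul ?_ (Real.rpow_le_rpow_of_exponent_le hq1 hεN) (by positivity)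
              (by positivity)
            calc (D ^ 2) ^ ε ≤ (D ^ 2) ^ (1 : ℝ) :=
                  Real.rpow_le_rpow_of_exponent_le (one_le_pow₀ hD) hε1
              _ = D ^ 2 := Real.rpow_one _
    have hRh : R ^ (1 / 2 : ℝ) ≤ D * (q : ℝ) ^ ((N : ℝ) / 2 + 11 / 16) := by
      calc R ^ (1 / 2 : ℝ) ≤ (D ^ 2 * (q : ℝ) ^ ((N : ℝ) + 11 / 8)) ^ (1 / 2 : ℝ) :=
            Real.rpow_le_rpow hR0.le hRb (by norm_num)
        _ = D * (q : ℝ) ^ ((N : ℝ) / 2 + 11 / 16) := by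
            rw [Real.mul_rpow (by positivity) (by positivity), ← Real.rpow_mul hq0.le,
              ← Real.rpow_natCast D 2, ← Real.rpow_mul (by linarith)]
            congr 1
            · norm_num
            · congr 1
              ring
    have hLh : L ^ (-(1 / 2) : ℝ) ≤ c ^ (-(1 / 2) : ℝ) * (q : ℝ) ^ ((N : ℝ) / 2) / nm d := by
      calc L ^ (-(1 / 2) : ℝ) ≤ (c * nm d ^ 2 / (q : ℝ) ^ N) ^ (-(1 / 2) : ℝ) :=
            Real.rpow_le_rpow_of_nonpos (by positivity) (le_max_right _ _) (by norm_num)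
        _ = c ^ (-(1 / 2) : ℝ) * (q : ℝ) ^ ((N : ℝ) / 2) / nm d := by
            rw [Real.div_rpow (by positivity) (by positivity),
              Real.mul_rpow hc.le (by positivity), ← Real.rpow_natCast (nm d) 2,
              ← Real.rpow_mul hd0.le, ← Real.rpow_natCast (q : ℝ) N, ← Real.rpow_mul hq0.le]
            have e1 : ((2 : ℕ) : ℝ) * (-(1 / 2)) = -1 := by push_cast; ring
            have e2 : (N : ℝ) * (-(1 / 2)) = -((N : ℝ) / 2) := by ring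
            rw [e1, e2, Real.rpow_neg_one, Real.rpow_neg hq0.le, div_inv_eq_mul]
            ring
    have hq2 : (q : ℝ) ^ ((N : ℝ) / 2) ≤ (q : ℝ) ^ ((N : ℝ) / 2 + 11 / 16) :=
      Real.rpow_le_rpow_of_exponent_le hq1 (by linarith)
    have hsum : L ^ (-(1 / 2) : ℝ) + R ^ (1 / 2 : ℝ) / nm d ≤
        (c ^ (-(1 / 2) : ℝ) + D) * (q : ℝ) ^ ((N : ℝ) / 2 + 11 / 16) / nm d := by
      calc L ^ (-(1 / 2) : ℝ) + R ^ (1 / 2 : ℝ) / nm d ≤
            c ^ (-(1 / 2) : ℝ) * (q : ℝ) ^ ((N : ℝ) / 2) / nm d +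
              D * (q : ℝ) ^ ((N : ℝ) / 2 + 11 / 16) / nm d :=
            add_le_add hLh (div_le_div_of_nonneg_right hRh hd0.le)
        _ ≤ c ^ (-(1 / 2) : ℝ) * (q : ℝ) ^ ((N : ℝ) / 2 + 11 / 16) / nm d +
              D * (q : ℝ) ^ ((N : ℝ) / 2 + 11 / 16) / nm d := by
            refine add_le_add (div_le_div_of_nonneg_right
              (mul_le_mul_of_nonneg_left hq2 (by positivity)) hd0.le) le_rfl
        _ = _ := by ring
    calc C * R ^ ε * uc d * (L ^ (-(1 / 2) : ℝ) + R ^ (1 / 2 : ℝ) / nm d) ≤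
          |C| * (D ^ 2 * (q : ℝ) ^ (1 / 16 : ℝ)) * uc d *
            ((c ^ (-(1 / 2) : ℝ) + D) * (q : ℝ) ^ ((N : ℝ) / 2 + 11 / 16) / nm d) := by
          refine mul_le_mul ?_ hsum (by positivity) (by positivity)
          refine mul_le_mul_of_nonneg_right ?_ (Nat.cast_nonneg _)
          exact mul_le_mul (le_abs_self C) hRe (by positivity) (abs_nonneg C)
      _ = |C| * D ^ 2 * (c ^ (-(1 / 2) : ℝ) + D) * uc d *
            ((q : ℝ) ^ (1 / 16 : ℝ) * (q : ℝ) ^ ((N : ℝ) / 2 + 11 / 16)) / nm d := by ring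
      _ = _ := by
          rw [← Real.rpow_add hq0]
          congr 3
          ring
  · intro p hp
    obtain ⟨n, hn, rfl⟩ := Finset.mem_image.1 hp
    obtain ⟨h1, h2, h3⟩ := hY n hn
    simp only [nm_top, mul_one]
    exact ⟨h1, hnL n hn, h3⟩

end F1

end Pool.Agent.H94.CV
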