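import Pool.Agent.H94.CV.F1c

/-!
# Module F1, part 4: the sums over finite sets of relations
-/

set_option autoImplicit false

open NumberField NumberField.InfinitePlace Complex Filter Topology

namespace Pool.Agent.H94.CV

open Pool.Agent.H37.CV Pool.Agent.H28.RC Pool.Agent.H25.HK

namespace F1

theorem uc_pos (K : Type) [Field K] [NumberField K] {q : ℕ} (hq : 1 ≤ q) {d : Ideal (𝓞 K)}
    (hd : qi K q ≤ d) : 1 ≤ uc d := by
  have hd0 : d ≠ ⊥ := by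
    rintro rfl
    exact qi_ne K hq (le_bot_iff.1 hd)
  have : Finite (𝓞 K ⧸ d) := Ideal.finiteQuotientOfFreeOfNeBot d hd0
  rw [HU.uc_eq]
  exact Nat.card_pos

/-- the sum over a set of nonzero ideals of the inverse squares of the norms -/
theorem sum_inv_sq (hZK : T_ZK) (K : Type) [Field K] [NumberField K] :
    Summable (fun I : NI K => (nm I.1 ^ 2)⁻¹) ∧ ∃ Z : ℝ, 0 ≤ Z ∧
      ∀ Y : Finset (Ideal (𝓞 K)), (∀ n ∈ Y, n ≠ ⊥) → ∑ n ∈ Y, (nm n ^ 2)⁻¹ ≤ Z := by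
  classical
  obtain ⟨E, -, hE, -⟩ := hZK K
  have h1 := (hE 2 (by norm_num)).1
  have h2 : Summable (fun I : NI K => (nm I.1 ^ 2)⁻¹) := by
    refine h1.congr fun I => ?_
    have h3 : 0 < nm I.1 := by linarith [nm_ge_one I.2]
    have h4 : (-2 : ℂ) = ((-2 : ℝ) : ℂ) := by push_cast; rfl
    rw [h4, ← Complex.ofReal_cpow h3.le, Complex.norm_real,
      Real.norm_of_nonneg (Real.rpow_nonneg h3.le _), Real.rpow_neg h3.le]
    congr 1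
    exact_mod_cast Real.rpow_natCast (nm I.1) 2
  refine ⟨h2, ∑' I : NI K, (nm I.1 ^ 2)⁻¹, tsum_nonneg fun I => by positivity, fun Y hY => ?_⟩
  have h5 : ∑ n ∈ Y, (nm n ^ 2)⁻¹ = ∑ I ∈ Y.subtype (fun n => n ≠ ⊥), (nm I.1 ^ 2)⁻¹ := by
    rw [Finset.sum_subtype_of_mem (fun n : Ideal (𝓞 K) => (nm n ^ 2)⁻¹) hY]
  rw [h5]
  exact h2.sum_le_tsum _ fun I _ => by positivity

/-- the bound for the logarithmic factor -/
theorem Bbound (N : ℕ) (b : ℝ) (hb : 1 ≤ b) : ∃ C : ℝ, 0 ≤ C ∧ ∀ q : ℕ, 1 ≤ q →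
    (b * (q : ℝ) ^ N) ^ (1 / (8 * ((N : ℝ) + 1))) * (1 + Real.log (b * (q : ℝ) ^ N)) ≤
      C * (q : ℝ) ^ (1 / 4 : ℝ) := by
  have hN0 : (0 : ℝ) ≤ N := Nat.cast_nonneg N
  have hlb := Real.log_nonneg hb
  refine ⟨b * (1 + Real.log b + N * 8), by positivity, fun q hq => ?_⟩
  have hq1 : (1 : ℝ) ≤ q := by exact_mod_cast hq
  have hq0 : (0 : ℝ) < q := by linarith
  have h1 : (b * (q : ℝ) ^ N) ^ (1 / (8 * ((N : ℝ) + 1))) ≤ b * (q : ℝ) ^ (1 / 8 : ℝ) := by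
    rw [Real.mul_rpow (by linarith) (by positivity)]
    refine mul_le_mul ?_ ?_ (by positivity) (by linarith)
    · calc b ^ (1 / (8 * ((N : ℝ) + 1))) ≤ b ^ (1 : ℝ) := by
            refine Real.rpow_le_rpow_of_exponent_le hb ?_
            rw [div_le_one (by positivity)]
            linarith
        _ = b := Real.rpow_one b
    · rw [← Real.rpow_natCast, ← Real.rpow_mul hq0.le]
      refine Real.rpow_le_rpow_of_exponent_le hq1 ?_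
      rw [mul_one_div, div_le_div_iff₀ (by positivity) (by norm_num)]
      linarith
  have hq8 : 1 ≤ (q : ℝ) ^ (1 / 8 : ℝ) := Real.one_le_rpow hq1 (by norm_num)
  have h2 : 1 + Real.log (b * (q : ℝ) ^ N) ≤ (1 + Real.log b + N * 8) * (q : ℝ) ^ (1 / 8 : ℝ) := by
    rw [Real.log_mul (by linarith) (by positivity), Real.log_pow]
    have h3 := Real.log_le_rpow_div hq0.le (show (0 : ℝ) < 1 / 8 by norm_num)
    have h4 : Real.log q ≤ 8 * (q : ℝ) ^ (1 / 8 : ℝ) := by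
      refine h3.trans (le_of_eq ?_)
      ring
    have h5 : (N : ℝ) * Real.log q ≤ N * (8 * (q : ℝ) ^ (1 / 8 : ℝ)) :=
      mul_le_mul_of_nonneg_left h4 hN0
    nlinarith
  have hlog : 0 ≤ 1 + Real.log (b * (q : ℝ) ^ N) := by
    have : 1 ≤ b * (q : ℝ) ^ N := by
      have h6 : (1 : ℝ) ≤ (q : ℝ) ^ N := one_le_pow₀ hq1
      nlinarith
    linarith [Real.log_nonneg this]
  calc (b * (q : ℝ) ^ N) ^ (1 / (8 * ((N : ℝ) + 1))) * (1 + Real.log (b * (q : ℝ) ^ N)) ≤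
        (b * (q : ℝ) ^ (1 / 8 : ℝ)) * ((1 + Real.log b + N * 8) * (q : ℝ) ^ (1 / 8 : ℝ)) :=
        mul_le_mul h1 h2 hlog (by positivity)
    _ = b * (1 + Real.log b + N * 8) * ((q : ℝ) ^ (1 / 8 : ℝ) * (q : ℝ) ^ (1 / 8 : ℝ)) := by ring
    _ = _ := by
        rw [← Real.rpow_add hq0]
        congr 2
        norm_num

/-- the sums over finite sets -/
theorem finsum_le (hRL : T_RL) (hPS : Pool.Agent.H37.CV.T_PS) (hDV : T_DV) (hWV : T_WV)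
    (hHQ : T_HQ) (hCX : T_CX) (hZK : T_ZK) (K : Type) [Field K] [NumberField K] [IsCMField K] :
    ∃ (C : ℝ) (q₁ : ℕ), 0 ≤ C ∧ ∀ q : ℕ, q.Prime → q₁ ≤ q → 0 < nc (qi K q) (qi K q) ∧
      ∀ M : ℝ, 1 ≤ M → M ≤ q →
      ∀ d : Ideal (𝓞 K), qi K q ≤ d → ∀ Y : Finset (Ideal (𝓞 K)),
      (∀ n ∈ Y, (n, ⊤) ∈ CP (qi K q) d ∧ (d = qi K q → n ≠ ⊤)) →
      (nc (qi K q) d : ℝ) * ∑ n ∈ Y, ‖lam (Xq K q) M n‖ * nm n ^ (-(1 / 2) : ℝ) ≤
        C * (q : ℝ) ^ (-(1 / 4) : ℝ) * nc (qi K q) (qi K q) := by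
  classical
  set N := Module.finrank ℚ K with hNdef
  have hN0 : (0 : ℝ) ≤ N := Nat.cast_nonneg N
  obtain ⟨c, hc, hrl⟩ := hRL K
  set b : ℝ := max 1 c with hb
  have hb1 : 1 ≤ b := le_max_left _ _
  obtain ⟨C₀, hC₀⟩ := hWV.1 0
  have hC₀0 : 0 ≤ C₀ := le_trans (by positivity) (hC₀ 1 one_pos).1
  obtain ⟨C₁, hC₁, hs1⟩ := short1 (K := K) hDV (1 / (8 * ((N : ℝ) + 1))) (by positivity)
  obtain ⟨C₂, hC₂, hs2⟩ := short2 (K := K) hDV (1 / (8 * ((N : ℝ) + 1))) (by positivity)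
  obtain ⟨C₃, hC₃, hlong⟩ := long (K := K) hPS hc
  obtain ⟨C₄, hC₄, htail, -⟩ := tail (K := K) hCX hWV hDV
  obtain ⟨-, Z, hZ, hZs⟩ := sum_inv_sq hZK K
  obtain ⟨C₅, hC₅, hBb⟩ := Bbound N b hb1
  obtain ⟨c', C', q₀, hc', hhq⟩ := hHQ K
  refine ⟨C₀ * (C₂ * C₅) + C₀ * (|C'| * (C₁ * C₅)) + C₀ * (C₃ * |C'| / c') +
    |C'| * (C₄ * Z) / c', max q₀ 3, by positivity, fun q hqp hq => ?_⟩
  have hq3 : 3 ≤ q := (le_max_right _ _).trans hq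
  have hqq : q₀ ≤ q := (le_max_left _ _).trans hq
  have hq1' : 1 ≤ q := by omega
  have hq1 : (1 : ℝ) ≤ q := by exact_mod_cast hq1'
  have hq0 : (0 : ℝ) < q := by linarith
  obtain ⟨hnc, hncd⟩ := hhq q hqp hqq
  rw [← hNdef] at hnc
  have hncpos : (0 : ℝ) < nc (qi K q) (qi K q) := lt_of_lt_of_le (by positivity) hnc
  refine ⟨by exact_mod_cast hncpos, fun M hM1 hMq d hd Y hY => ?_⟩
  obtain ⟨hd1, hd2⟩ := nm_le_of_le K hq1' hd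
  rw [← hNdef] at hd2
  have hd0 : 0 < nm d := by linarith
  obtain ⟨hX1, -⟩ := Xq_bounds K hq1'
  set X := Xq K q with hX
  have hX0 : 0 < X := by linarith
  obtain ⟨hnu, hnd⟩ := hncd d hd
  have huc : (1 : ℝ) ≤ uc d := by exact_mod_cast uc_pos K hq1' hd
  have hncd0 : (0 : ℝ) ≤ nc (qi K q) d := Nat.cast_nonneg _
  have hnu' : (nc (qi K q) d : ℝ) * uc d ≤ |C'| * nm d :=
    hnu.trans (mul_le_mul_of_nonneg_right (le_abs_self _) hd0.le)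
  have hnd1 : (nc (qi K q) d : ℝ) ≤ |C'| * nm d :=
    (le_mul_of_one_le_right hncd0 huc).trans hnu'
  have hYb : ∀ n ∈ Y, n ≠ ⊥ := fun n hn => (hY n hn).1.1
  have ht0 : ∀ n ∈ Y, ‖lam X M n‖ * nm n ^ (-(1 / 2) : ℝ) ≤
      C₀ * ((2 : ℝ) ^ (pf n).card * nm n ^ (-(1 / 2) : ℝ)) := by
    intro n hn
    have h1 := lam_le hCX 0 (fun x hx => (hC₀ x hx).1) hX0 hM1 (hYb n hn)
    rw [pow_zero, mul_one] at h1
    calc ‖lam X M n‖ * nm n ^ (-(1 / 2) : ℝ) ≤ (C₀ * 2 ^ (pf n).card) * nm n ^ (-(1 / 2) : ℝ) :=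
          mul_le_mul_of_nonneg_right h1 (Real.rpow_nonneg (by linarith [nm_ge_one (hYb n hn)]) _)
      _ = _ := by ring
  set S : Finset (Ideal (𝓞 K)) := Y.filter (fun n => nm n * (q : ℝ) ^ N < c * nm d ^ 2) with hS
  set S' : Finset (Ideal (𝓞 K)) := Y.filter (fun n => ¬ nm n * (q : ℝ) ^ N < c * nm d ^ 2) with hS'
  set L : Finset (Ideal (𝓞 K)) := S'.filter (fun n => nm n ≤ X * (q : ℝ) ^ (9 / 8 : ℝ)) with hL
  set T : Finset (Ideal (𝓞 K)) := S'.filter (fun n => ¬ nm n ≤ X * (q : ℝ) ^ (9 / 8 : ℝ)) with hT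
  have hsplit : ∑ n ∈ Y, ‖lam X M n‖ * nm n ^ (-(1 / 2) : ℝ) =
      ∑ n ∈ S, ‖lam X M n‖ * nm n ^ (-(1 / 2) : ℝ) +
      (∑ n ∈ L, ‖lam X M n‖ * nm n ^ (-(1 / 2) : ℝ) +
        ∑ n ∈ T, ‖lam X M n‖ * nm n ^ (-(1 / 2) : ℝ)) := by
    rw [hL, hT, Finset.sum_filter_add_sum_filter_not, hS, hS', Finset.sum_filter_add_sum_filter_not]
  have hSY : ∀ n ∈ S, n ∈ Y := fun n hn => (Finset.mem_filter.1 hn).1
  have hLY : ∀ n ∈ L, n ∈ Y := fun n hn =>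
    (Finset.mem_filter.1 (Finset.mem_filter.1 hn).1).1
  have hTY : ∀ n ∈ T, n ∈ Y := fun n hn =>
    (Finset.mem_filter.1 (Finset.mem_filter.1 hn).1).1
  -- the short relations
  have hshort : ∀ n ∈ S, ∃ y₁ y₂ : Ideal (𝓞 (Kp K)), Real2 (n, ⊤) y₁ y₂ ∧
      (d = qi K q → Cg q y₁ y₂) ∧ nm y₁ ≤ b * (q : ℝ) ^ N := by
    intro n hn
    have h1 := (Finset.mem_filter.1 hn).2
    obtain ⟨y₁, y₂, h2, h3⟩ := hrl q hqp d hd (n, ⊤) (hY n (hSY n hn)).1 (by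
      simp only [nm_top, mul_one]
      exact h1)
    refine ⟨y₁, y₂, h2, h3, ?_⟩
    have h4 : nm n = nm y₁ ^ 2 := h2.2.2.2.2.1
    have h5 : 1 ≤ nm y₁ := nm_ge_one h2.1
    have hqN : (0 : ℝ) < (q : ℝ) ^ N := by positivity
    have h6 : nm n * (q : ℝ) ^ N < (c * (q : ℝ) ^ N) * (q : ℝ) ^ N := by
      refine h1.trans_le ?_
      calc c * nm d ^ 2 ≤ c * ((q : ℝ) ^ N) ^ 2 :=
            mul_le_mul_of_nonneg_left (pow_le_pow_left₀ hd0.le hd2 2) hc.le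
        _ = _ := by ring
    have h7 : nm n < c * (q : ℝ) ^ N := lt_of_mul_lt_mul_right h6 hqN.le
    have h8 : c * (q : ℝ) ^ N ≤ b * (q : ℝ) ^ N :=
      mul_le_mul_of_nonneg_right (le_max_right _ _) hqN.le
    nlinarith
  have hBq : 1 ≤ b * (q : ℝ) ^ N := by
    have h6 : (1 : ℝ) ≤ (q : ℝ) ^ N := one_le_pow₀ hq1
    nlinarith
  have hbq := hBb q hq1'
  have hq34 : (q : ℝ) ^ (1 / 4 : ℝ) / q ≤ (q : ℝ) ^ (-(1 / 4) : ℝ) := by
    have h1 : (q : ℝ) ^ (1 / 4 : ℝ) / q = (q : ℝ) ^ (-(3 / 4) : ℝ) := by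
      rw [← Real.rpow_sub_one hq0.ne']
      congr 1
      norm_num
    rw [h1]
    exact Real.rpow_le_rpow_of_exponent_le hq1 (by norm_num)
  have hIS : (nc (qi K q) d : ℝ) * ∑ n ∈ S, ‖lam X M n‖ * nm n ^ (-(1 / 2) : ℝ) ≤
      (C₀ * (C₂ * C₅) + C₀ * (|C'| * (C₁ * C₅))) * (q : ℝ) ^ (-(1 / 4) : ℝ) *
        nc (qi K q) (qi K q) := by
    have h1 : ∑ n ∈ S, ‖lam X M n‖ * nm n ^ (-(1 / 2) : ℝ) ≤
        C₀ * ∑ n ∈ S, (2 : ℝ) ^ (pf n).card * nm n ^ (-(1 / 2) : ℝ) := by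
      rw [Finset.mul_sum]
      exact Finset.sum_le_sum fun n hn => ht0 n (hSY n hn)
    by_cases hdq : d = qi K q
    · have h2 := hs2 q (b * (q : ℝ) ^ N) S hq3 hBq (fun n hn => by
        obtain ⟨y₁, y₂, h3, h4, h5⟩ := hshort n hn
        exact ⟨(hY n (hSY n hn)).2 hdq, y₁, y₂, h3, h4 hdq, h5⟩)
      have h3 : C₂ * (b * (q : ℝ) ^ N) ^ (1 / (8 * ((N : ℝ) + 1))) *
          (1 + Real.log (b * (q : ℝ) ^ N)) / q ≤ C₂ * C₅ * (q : ℝ) ^ (-(1 / 4) : ℝ) := by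
        calc C₂ * (b * (q : ℝ) ^ N) ^ (1 / (8 * ((N : ℝ) + 1))) *
              (1 + Real.log (b * (q : ℝ) ^ N)) / q = C₂ * ((b * (q : ℝ) ^ N) ^
              (1 / (8 * ((N : ℝ) + 1))) * (1 + Real.log (b * (q : ℝ) ^ N))) / q := by ring
          _ ≤ C₂ * (C₅ * (q : ℝ) ^ (1 / 4 : ℝ)) / q :=
              div_le_div_of_nonneg_right (mul_le_mul_of_nonneg_left hbq hC₂) hq0.le
          _ = C₂ * C₅ * ((q : ℝ) ^ (1 / 4 : ℝ) / q) := by ring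
          _ ≤ _ := mul_le_mul_of_nonneg_left hq34 (by positivity)
      have h4 : ∑ n ∈ S, ‖lam X M n‖ * nm n ^ (-(1 / 2) : ℝ) ≤
          C₀ * (C₂ * C₅ * (q : ℝ) ^ (-(1 / 4) : ℝ)) :=
        h1.trans (mul_le_mul_of_nonneg_left (h2.trans h3) hC₀0)
      rw [hdq]
      calc (nc (qi K q) (qi K q) : ℝ) * ∑ n ∈ S, ‖lam X M n‖ * nm n ^ (-(1 / 2) : ℝ) ≤
            (nc (qi K q) (qi K q) : ℝ) * (C₀ * (C₂ * C₅ * (q : ℝ) ^ (-(1 / 4) : ℝ))) :=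
            mul_le_mul_of_nonneg_left h4 hncpos.le
        _ = (C₀ * (C₂ * C₅)) * (q : ℝ) ^ (-(1 / 4) : ℝ) * nc (qi K q) (qi K q) := by ring
        _ ≤ _ := by
            refine mul_le_mul_of_nonneg_right (mul_le_mul_of_nonneg_right ?_ (by positivity))
              hncpos.le
            have : 0 ≤ C₀ * (|C'| * (C₁ * C₅)) := by positivity
            linarith
    · have h2 := hs1 (b * (q : ℝ) ^ N) S hBq (fun n hn => by
        obtain ⟨y₁, y₂, h3, h4, h5⟩ := hshort n hn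
        exact ⟨y₁, y₂, h3, h5⟩)
      have h3 : C₁ * (b * (q : ℝ) ^ N) ^ (1 / (8 * ((N : ℝ) + 1))) *
          (1 + Real.log (b * (q : ℝ) ^ N)) ≤ C₁ * (C₅ * (q : ℝ) ^ (1 / 4 : ℝ)) := by
        rw [mul_assoc]
        exact mul_le_mul_of_nonneg_left hbq hC₁
      have h4 : ∑ n ∈ S, ‖lam X M n‖ * nm n ^ (-(1 / 2) : ℝ) ≤
          C₀ * (C₁ * (C₅ * (q : ℝ) ^ (1 / 4 : ℝ))) :=
        h1.trans (mul_le_mul_of_nonneg_left (h2.trans h3) hC₀0)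
      have h5 : (nc (qi K q) d : ℝ) ≤ |C'| * (q : ℝ) ^ (-(1 / 2) : ℝ) * nc (qi K q) (qi K q) :=
        (hnd hdq).trans (mul_le_mul_of_nonneg_right
          (mul_le_mul_of_nonneg_right (le_abs_self _) (by positivity)) hncpos.le)
      have h6 : (q : ℝ) ^ (-(1 / 2) : ℝ) * (q : ℝ) ^ (1 / 4 : ℝ) = (q : ℝ) ^ (-(1 / 4) : ℝ) := by
        rw [← Real.rpow_add hq0]
        norm_num
      calc (nc (qi K q) d : ℝ) * ∑ n ∈ S, ‖lam X M n‖ * nm n ^ (-(1 / 2) : ℝ) ≤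
            (nc (qi K q) d : ℝ) * (C₀ * (C₁ * (C₅ * (q : ℝ) ^ (1 / 4 : ℝ)))) :=
            mul_le_mul_of_nonneg_left h4 hncd0
        _ ≤ (|C'| * (q : ℝ) ^ (-(1 / 2) : ℝ) * nc (qi K q) (qi K q)) *
              (C₀ * (C₁ * (C₅ * (q : ℝ) ^ (1 / 4 : ℝ)))) :=
            mul_le_mul_of_nonneg_right h5 (by positivity)
        _ = (C₀ * (|C'| * (C₁ * C₅))) * ((q : ℝ) ^ (-(1 / 2) : ℝ) * (q : ℝ) ^ (1 / 4 : ℝ)) *
              nc (qi K q) (qi K q) := by ring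
        _ = (C₀ * (|C'| * (C₁ * C₅))) * (q : ℝ) ^ (-(1 / 4) : ℝ) * nc (qi K q) (qi K q) := by
            rw [h6]
        _ ≤ _ := by
            refine mul_le_mul_of_nonneg_right (mul_le_mul_of_nonneg_right ?_ (by positivity))
              hncpos.le
            have : 0 ≤ C₀ * (C₂ * C₅) := by positivity
            linarith
  -- the long relations
  have hIL : (nc (qi K q) d : ℝ) * ∑ n ∈ L, ‖lam X M n‖ * nm n ^ (-(1 / 2) : ℝ) ≤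
      (C₀ * (C₃ * |C'| / c')) * (q : ℝ) ^ (-(1 / 4) : ℝ) * nc (qi K q) (qi K q) := by
    have h1 : ∑ n ∈ L, ‖lam X M n‖ * nm n ^ (-(1 / 2) : ℝ) ≤
        C₀ * ∑ n ∈ L, (2 : ℝ) ^ (pf n).card * nm n ^ (-(1 / 2) : ℝ) := by
      rw [Finset.mul_sum]
      exact Finset.sum_le_sum fun n hn => ht0 n (hLY n hn)
    have h2 := hlong q d L hq1' hd (fun n hn =>
      ⟨(hY n (hLY n hn)).1, not_lt.1 (Finset.mem_filter.1 (Finset.mem_filter.1 hn).1).2,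
        (Finset.mem_filter.1 hn).2⟩)
    rw [← hNdef] at h2
    have h3 : (q : ℝ) ^ ((N : ℝ) / 2 + 3 / 4) =
        (q : ℝ) ^ (-(1 / 4) : ℝ) * (q : ℝ) ^ ((N : ℝ) / 2 + 1) := by
      rw [← Real.rpow_add hq0]
      congr 1
      ring
    have h4 : (q : ℝ) ^ ((N : ℝ) / 2 + 1) ≤ nc (qi K q) (qi K q) / c' := by
      rw [le_div_iff₀ hc', mul_comm]
      exact hnc
    calc (nc (qi K q) d : ℝ) * ∑ n ∈ L, ‖lam X M n‖ * nm n ^ (-(1 / 2) : ℝ) ≤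
          (nc (qi K q) d : ℝ) * (C₀ * (C₃ * uc d * (q : ℝ) ^ ((N : ℝ) / 2 + 3 / 4) / nm d)) :=
          mul_le_mul_of_nonneg_left (h1.trans (mul_le_mul_of_nonneg_left h2 hC₀0)) hncd0
      _ = C₀ * C₃ * (q : ℝ) ^ ((N : ℝ) / 2 + 3 / 4) * ((nc (qi K q) d : ℝ) * uc d) / nm d := by
          ring
      _ ≤ C₀ * C₃ * (q : ℝ) ^ ((N : ℝ) / 2 + 3 / 4) * (|C'| * nm d) / nm d :=
          div_le_div_of_nonneg_right (mul_le_mul_of_nonneg_left hnu' (by positivity)) hd0.le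
      _ = C₀ * C₃ * |C'| * (q : ℝ) ^ (-(1 / 4) : ℝ) * (q : ℝ) ^ ((N : ℝ) / 2 + 1) := by
          rw [h3]
          field_simp
      _ ≤ C₀ * C₃ * |C'| * (q : ℝ) ^ (-(1 / 4) : ℝ) * (nc (qi K q) (qi K q) / c') :=
          mul_le_mul_of_nonneg_left h4 (by positivity)
      _ = _ := by ring
  -- the tail
  have hIT : (nc (qi K q) d : ℝ) * ∑ n ∈ T, ‖lam X M n‖ * nm n ^ (-(1 / 2) : ℝ) ≤
      (|C'| * (C₄ * Z) / c') * (q : ℝ) ^ (-(1 / 4) : ℝ) * nc (qi K q) (qi K q) := by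
    have h1 : ∑ n ∈ T, ‖lam X M n‖ * nm n ^ (-(1 / 2) : ℝ) ≤
        C₄ * (q : ℝ) ^ (-((N : ℝ) + 1)) * Z := by
      calc ∑ n ∈ T, ‖lam X M n‖ * nm n ^ (-(1 / 2) : ℝ) ≤
            ∑ n ∈ T, C₄ * (q : ℝ) ^ (-((N : ℝ) + 1)) * (nm n ^ 2)⁻¹ := by
            refine Finset.sum_le_sum fun n hn => ?_
            have h2 := htail q M n hq1' hM1 hMq (hYb n (hTY n hn))
              (not_le.1 (Finset.mem_filter.1 hn).2)
            rw [← hNdef] at h2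
            exact h2
        _ = C₄ * (q : ℝ) ^ (-((N : ℝ) + 1)) * ∑ n ∈ T, (nm n ^ 2)⁻¹ := by
            rw [Finset.mul_sum]
        _ ≤ _ := mul_le_mul_of_nonneg_left (hZs T fun n hn => hYb n (hTY n hn)) (by positivity)
    have h2 : (q : ℝ) ^ (-((N : ℝ) + 1)) * (q : ℝ) ^ N ≤ (q : ℝ) ^ (-(1 / 4) : ℝ) := by
      rw [← Real.rpow_natCast (q : ℝ) N, ← Real.rpow_add hq0]
      exact Real.rpow_le_rpow_of_exponent_le hq1 (by linarith)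
    have h3 : (1 : ℝ) ≤ nc (qi K q) (qi K q) / c' := by
      rw [le_div_iff₀ hc', one_mul]
      refine le_trans ?_ hnc
      exact le_mul_of_one_le_right hc'.le (Real.one_le_rpow hq1 (by positivity))
    calc (nc (qi K q) d : ℝ) * ∑ n ∈ T, ‖lam X M n‖ * nm n ^ (-(1 / 2) : ℝ) ≤
          (|C'| * (q : ℝ) ^ N) * (C₄ * (q : ℝ) ^ (-((N : ℝ) + 1)) * Z) := by
          refine mul_le_mul (hnd1.trans (mul_le_mul_of_nonneg_left hd2 (abs_nonneg _))) h1 ?_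
            (by positivity)
          exact Finset.sum_nonneg fun n hn => mul_nonneg (norm_nonneg _)
            (Real.rpow_nonneg (by linarith [nm_ge_one (hYb n (hTY n hn))]) _)
      _ = |C'| * (C₄ * Z) * ((q : ℝ) ^ (-((N : ℝ) + 1)) * (q : ℝ) ^ N) := by ring
      _ ≤ |C'| * (C₄ * Z) * (q : ℝ) ^ (-(1 / 4) : ℝ) := mul_le_mul_of_nonneg_left h2 (by positivity)
      _ ≤ |C'| * (C₄ * Z) * (q : ℝ) ^ (-(1 / 4) : ℝ) * (nc (qi K q) (qi K q) / c') :=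
          le_mul_of_one_le_right (by positivity) h3
      _ = _ := by ring
  rw [hsplit, mul_add, mul_add]
  calc _ ≤ (C₀ * (C₂ * C₅) + C₀ * (|C'| * (C₁ * C₅))) * (q : ℝ) ^ (-(1 / 4) : ℝ) *
        nc (qi K q) (qi K q) +
        ((C₀ * (C₃ * |C'| / c')) * (q : ℝ) ^ (-(1 / 4) : ℝ) * nc (qi K q) (qi K q) +
        (|C'| * (C₄ * Z) / c') * (q : ℝ) ^ (-(1 / 4) : ℝ) * nc (qi K q) (qi K q)) :=
        add_le_add hIS (add_le_add hIL hIT)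
    _ = _ := by ring

end F1

end Pool.Agent.H94.CV
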